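import Mathlib

set_option autoImplicit false

open Finset Classical

namespace Pool.Agent.helper22.Col

/-- stable subsets of the cycle `0, 1, …, n-1` -/
def St (n : ℕ) (A : Finset ℕ) : Prop :=
  (∀ i ∈ A, i < n) ∧ (∀ i ∈ A, i + 1 ∉ A) ∧ ¬ (0 ∈ A ∧ n - 1 ∈ A)

lemma succ_inj_image (T : Finset ℕ) : (T.image (· + 1)).card = T.card :=
  card_image_of_injective _ (fun a b h => by simpa using h)

lemma disj_succ {T : Finset ℕ} (h : ∀ i ∈ T, i + 1 ∉ T) : Disjoint T (T.image (· + 1)) := by
  rw [Finset.disjoint_left]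
  intro i hi hi'
  rw [mem_image] at hi'
  obtain ⟨j, hj, rfl⟩ := hi'
  exact h j hj hi

/-- sets without consecutive elements in an interval of length `2 m` (last element excluded) -/
lemma card_le_tight {T : Finset ℕ} {a m : ℕ} (h : ∀ i ∈ T, i + 1 ∉ T)
    (hT : ∀ i ∈ T, a ≤ i ∧ i + 1 < a + 2 * m) :
    T.card ≤ m ∧ (T.card = m → T = (range m).image (fun j => a + 2 * j)) := by
  have hd := disj_succ h
  have hsub : T ∪ T.image (· + 1) ⊆ Finset.Ico a (a + 2 * m) := by
    intro i hi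
    rw [mem_union, mem_image] at hi
    rw [Finset.mem_Ico]
    rcases hi with hi | ⟨j, hj, rfl⟩
    · have := hT i hi; omega
    · have := hT j hj; omega
  have hc := card_le_card hsub
  rw [card_union_of_disjoint hd, succ_inj_image, Nat.card_Ico] at hc
  refine ⟨by omega, fun hm => ?_⟩
  have heq : T ∪ T.image (· + 1) = Finset.Ico a (a + 2 * m) := by
    apply eq_of_subset_of_card_le hsub
    rw [card_union_of_disjoint hd, succ_inj_image, Nat.card_Ico]
    omega
  have key : ∀ j < m, a + 2 * j ∈ T := by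
    intro j
    induction j with
    | zero =>
      intro h0
      have : a + 2 * 0 ∈ T ∪ T.image (· + 1) := by
        rw [heq, Finset.mem_Ico]; omega
      rw [mem_union, mem_image] at this
      rcases this with h1 | ⟨i, hi, h1⟩
      · exact h1
      · have := hT i hi; omega
    | succ j ih =>
      intro hj
      have h1 := ih (by omega)
      have h2 := h _ h1
      have : a + 2 * (j + 1) ∈ T ∪ T.image (· + 1) := by
        rw [heq, Finset.mem_Ico]; omega
      rw [mem_union, mem_image] at this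
      rcases this with h3 | ⟨i, hi, h3⟩
      · exact h3
      · exfalso
        apply h2
        have : i = a + 2 * j + 1 := by omega
        rw [← this]; exact hi
  symm
  apply eq_of_subset_of_card_le
  · intro i hi
    rw [mem_image] at hi
    obtain ⟨j, hj, rfl⟩ := hi
    rw [mem_range] at hj
    exact key j hj
  · rw [card_image_of_injective, card_range, hm]
    intro x y hxy
    simp only at hxy
    omega

lemma two_card_le {F : Finset ℕ} {n : ℕ} (h : ∀ i ∈ F, i + 1 ∉ F) (hn : ∀ i ∈ F, i < n) :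
    2 * F.card ≤ n + 1 := by
  have hd := disj_succ h
  have hsub : F ∪ F.image (· + 1) ⊆ range (n + 1) := by
    intro i hi
    rw [mem_union, mem_image] at hi
    rw [mem_range]
    rcases hi with hi | ⟨j, hj, rfl⟩
    · have := hn i hi; omega
    · have := hn j hj; omega
  have hc := card_le_card hsub
  rw [card_union_of_disjoint hd, succ_inj_image, card_range] at hc
  omega

section step

variable (n p m : ℕ)

/-- embedding of the small cycle into the large one -/
def io (i : ℕ) : ℕ := if i < p then i else i + (2 * m + 1)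

/-- part of `A` in the small cycle -/
def Fp (A : Finset ℕ) : Finset ℕ := (range n).filter (fun i => io p m i ∈ A)

/-- part of `A` in the new block -/
def Tp (A : Finset ℕ) : Finset ℕ := A.filter (fun i => p ≤ i ∧ i ≤ p + 2 * m)

/-- even elements of the block -/
def Ev : Finset ℕ := (range (m + 1)).image (fun j => p + 2 * j)

/-- odd elements of the block -/
def Od : Finset ℕ := (range m).image (fun j => (p + 1) + 2 * j)

lemma io_inj : Function.Injective (io p m) := by
  intro i j h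
  unfold io at h
  split_ifs at h <;> omega

lemma mem_Fp {A : Finset ℕ} {i : ℕ} : i ∈ Fp n p m A ↔ i < n ∧ io p m i ∈ A := by
  unfold Fp
  rw [mem_filter, mem_range]

lemma mem_Tp {A : Finset ℕ} {i : ℕ} : i ∈ Tp p m A ↔ i ∈ A ∧ p ≤ i ∧ i ≤ p + 2 * m := by
  unfold Tp
  rw [mem_filter]

lemma mem_Ev {i : ℕ} : i ∈ Ev p m ↔ ∃ j ≤ m, i = p + 2 * j := by
  unfold Ev
  rw [mem_image]
  constructor
  · rintro ⟨j, hj, rfl⟩
    rw [mem_range] at hj
    exact ⟨j, by omega, rfl⟩
  · rintro ⟨j, hj, rfl⟩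
    exact ⟨j, mem_range.2 (by omega), rfl⟩

lemma mem_Od {i : ℕ} : i ∈ Od p m ↔ ∃ j < m, i = p + 1 + 2 * j := by
  unfold Od
  rw [mem_image]
  constructor
  · rintro ⟨j, hj, rfl⟩
    rw [mem_range] at hj
    exact ⟨j, by omega, rfl⟩
  · rintro ⟨j, hj, rfl⟩
    exact ⟨j, mem_range.2 (by omega), rfl⟩

lemma card_Ev : (Ev p m).card = m + 1 := by
  unfold Ev
  rw [card_image_of_injective, card_range]
  intro x y h
  simp only at h
  omega

lemma decomp {A : Finset ℕ} (hpn : p ≤ n) (hA : ∀ i ∈ A, i < n + (2 * m + 1)) :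
    A = (Fp n p m A).image (io p m) ∪ Tp p m A := by
  ext i
  rw [mem_union, mem_image, mem_Tp]
  constructor
  · intro hi
    by_cases h : p ≤ i ∧ i ≤ p + 2 * m
    · right; exact ⟨hi, h⟩
    · left
      by_cases h1 : i < p
      · refine ⟨i, ?_, ?_⟩
        · rw [mem_Fp]
          unfold io
          rw [if_pos h1]
          exact ⟨by omega, hi⟩
        · unfold io
          rw [if_pos h1]
      · have hlt := hA i hi
        have h2 : ¬ (i - (2 * m + 1) < p) := by omega
        refine ⟨i - (2 * m + 1), ?_, ?_⟩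
        · rw [mem_Fp]
          unfold io
          rw [if_neg h2]
          have : i - (2 * m + 1) + (2 * m + 1) = i := by omega
          rw [this]
          exact ⟨by omega, hi⟩
        · unfold io
          rw [if_neg h2]
          omega
  · rintro (⟨j, hj, rfl⟩ | h)
    · rw [mem_Fp] at hj
      exact hj.2
    · exact h.1

lemma card_decomp {A : Finset ℕ} (hpn : p ≤ n) (hA : ∀ i ∈ A, i < n + (2 * m + 1)) :
    A.card = (Fp n p m A).card + (Tp p m A).card := by
  conv_lhs => rw [decomp n p m hpn hA]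
  rw [card_union_of_disjoint, card_image_of_injective _ (io_inj p m)]
  rw [Finset.disjoint_left]
  intro i hi hi'
  rw [mem_image] at hi
  obtain ⟨j, _, rfl⟩ := hi
  rw [mem_Tp] at hi'
  unfold io at hi'
  split_ifs at hi' <;> omega

lemma ext_FT {A B : Finset ℕ} (hpn : p ≤ n) (hA : ∀ i ∈ A, i < n + (2 * m + 1))
    (hB : ∀ i ∈ B, i < n + (2 * m + 1)) (h1 : Fp n p m A = Fp n p m B) (h2 : Tp p m A = Tp p m B) :
    A = B := by
  rw [decomp n p m hpn hA, decomp n p m hpn hB, h1, h2]

end step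

lemma St.subset {n : ℕ} {A B : Finset ℕ} (h : St n A) (hB : B ⊆ A) : St n B :=
  ⟨fun i hi => h.1 i (hB hi), fun i hi hi' => h.2.1 i (hB hi) (hB hi'),
    fun h' => h.2.2 ⟨hB h'.1, hB h'.2⟩⟩

lemma exists_other {k : ℕ} (hk : 2 ≤ k) {G P Q : Finset ℕ} (hG : k + 1 ≤ G.card) (hPG : P ⊆ G)
    (hP : P.card = k) (hPQ : Disjoint P Q) : ∃ D ⊆ G, D.card = k ∧ D ≠ P ∧ D ≠ Q := by
  obtain ⟨g, hgG, hgP⟩ : ∃ g ∈ G, g ∉ P := by
    by_contra h
    push Not at h
    have := card_le_card (show G ⊆ P from h)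
    omega
  obtain ⟨x, hx, y, hy, hxy⟩ := one_lt_card.1 (show 1 < P.card by omega)
  refine ⟨insert g (P.erase x), ?_, ?_, ?_, ?_⟩
  · apply insert_subset hgG
    exact (erase_subset _ _).trans hPG
  · rw [card_insert_of_notMem, card_erase_of_mem hx]
    · omega
    · intro h
      exact hgP (mem_of_mem_erase h)
  · intro h
    apply hgP
    rw [← h]
    exact mem_insert_self _ _
  · intro h
    have hyD : y ∈ Q := by
      rw [← h]
      exact mem_insert_of_mem (mem_erase.2 ⟨hxy.symm, hy⟩)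
    exact (Finset.disjoint_left.1 hPQ) hy hyD

lemma exists_sub_stable {n k : ℕ} (hk : 2 ≤ k) {X Y G : Finset ℕ} (hG : St n G)
    (hX : X.card = k) (hY : Y.card = k) (hXY : Disjoint X Y) (hcard : k + 1 ≤ G.card) :
    ∃ D ⊆ G, St n D ∧ D.card = k ∧ D ≠ X ∧ D ≠ Y := by
  obtain ⟨D0, hD0, hD0c⟩ := exists_subset_card_eq (show k ≤ G.card by omega)
  by_cases h1 : D0 = X
  · subst h1
    obtain ⟨D, h2, h3, h4, h5⟩ := exists_other hk hcard hD0 hX hXY
    exact ⟨D, h2, hG.subset h2, h3, h4, h5⟩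
  by_cases h2 : D0 = Y
  · subst h2
    obtain ⟨D, h2, h3, h4, h5⟩ := exists_other hk hcard hD0 hY hXY.symm
    exact ⟨D, h2, hG.subset h2, h3, h5, h4⟩
  exact ⟨D0, hD0, hG.subset hD0, hD0c, h1, h2⟩

lemma exists_sub {n k p : ℕ} (hk : 2 ≤ k) (hp : 1 ≤ p) {X Y F : Finset ℕ}
    (hX : X.card = k) (hY : Y.card = k) (hXY : Disjoint X Y) (hpX : p ∈ X)
    (hF1 : ∀ i ∈ F, i < n) (hF2 : ∀ i ∈ F, i + 1 ∈ F → i + 1 = p) (hF3 : ¬ (0 ∈ F ∧ n - 1 ∈ F))
    (hcard : k ≤ F.card) (hW : ¬ (p - 1 ∈ F ∧ p ∈ F ∧ F.card = k)) :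
    ∃ D ⊆ F, St n D ∧ D.card = k ∧ (D = X ∨ D = Y → F = D) := by
  by_cases hef : p - 1 ∈ F ∧ p ∈ F
  · have hc : k + 1 ≤ F.card := by
      have : F.card ≠ k := fun h => hW ⟨hef.1, hef.2, h⟩
      omega
    have hSt : ∀ q, (q = p ∨ q = p - 1) → St n (F.erase q) := by
      intro q hq
      refine ⟨fun i hi => hF1 i (mem_of_mem_erase hi), fun i hi hi' => ?_, fun h => hF3
        ⟨mem_of_mem_erase h.1, mem_of_mem_erase h.2⟩⟩
      have := hF2 i (mem_of_mem_erase hi) (mem_of_mem_erase hi')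
      rw [mem_erase] at hi hi'
      rcases hq with rfl | rfl
      · exact hi'.1 this
      · apply hi.1; omega
    by_cases hc2 : k + 2 ≤ F.card
    · have h1 : k + 1 ≤ (F.erase p).card := by
        rw [card_erase_of_mem hef.2]; omega
      obtain ⟨D, h2, h3, h4, h5, h6⟩ := exists_sub_stable hk (hSt p (Or.inl rfl)) hX hY hXY h1
      refine ⟨D, h2.trans (erase_subset _ _), h3, h4, ?_⟩
      rintro (h | h)
      · exact absurd h h5
      · exact absurd h h6
    · have hFk : F.card = k + 1 := by omega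
      by_cases h1 : F.erase (p - 1) = X
      · refine ⟨F.erase p, erase_subset _ _, hSt p (Or.inl rfl), ?_, ?_⟩
        · rw [card_erase_of_mem hef.2]; omega
        · rintro (h | h)
          · exfalso
            rw [← h] at hpX
            exact (mem_erase.1 hpX).1 rfl
          · exfalso
            obtain ⟨x, hx, y, hy, hxy⟩ := one_lt_card.1 (show 1 < X.card by omega)
            obtain ⟨w, hw, hwp⟩ : ∃ w ∈ X, w ≠ p := by
              by_cases hxp : x = p
              · exact ⟨y, hy, fun h => hxy (hxp.trans h.symm)⟩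
              · exact ⟨x, hx, hxp⟩
            have hwF : w ∈ F := by
              rw [← h1] at hw
              exact mem_of_mem_erase hw
            have hwY : w ∈ Y := by
              rw [← h]
              exact mem_erase.2 ⟨hwp, hwF⟩
            exact (Finset.disjoint_left.1 hXY) hw hwY
      · refine ⟨F.erase (p - 1), erase_subset _ _, hSt (p - 1) (Or.inr rfl), ?_, ?_⟩
        · rw [card_erase_of_mem hef.1]; omega
        · rintro (h | h)
          · exact absurd h h1
          · exfalso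
            have : p ∈ Y := by
              rw [← h]
              exact mem_erase.2 ⟨by omega, hef.2⟩
            exact (Finset.disjoint_left.1 hXY) hpX this
  · have hSt : St n F := by
      refine ⟨hF1, fun i hi hi' => ?_, hF3⟩
      have := hF2 i hi hi'
      apply hef
      constructor
      · have : p - 1 = i := by omega
        rw [this]; exact hi
      · rw [← this]; exact hi'
    by_cases hc : F.card = k
    · exact ⟨F, Subset.refl _, hSt, hc, fun _ => rfl⟩
    · obtain ⟨D, h2, h3, h4, h5, h6⟩ := exists_sub_stable hk hSt hX hY hXY (by omega)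
      refine ⟨D, h2, h3, h4, ?_⟩
      rintro (h | h)
      · exact absurd h h5
      · exact absurd h h6

/-- the sets that receive the new colour -/
def zc (n p m : ℕ) (X Y A : Finset ℕ) : Prop :=
  (p ∈ A ∧ (m + 1 < 2 * (A ∩ Ev p m).card ∨ Fp n p m A = X ∨ Fp n p m A = Y)) ∨
  (m + 1 < 2 * (A ∩ Ev p m).card ∧ (∃ i ∈ Fp n p m A, i ∈ X) ∧ (∃ i ∈ Fp n p m A, i ∈ Y))

/-- the special sets containing both neighbours of the block -/
def wc (n k p m : ℕ) (A : Finset ℕ) : Prop :=
  p - 1 ∈ A ∧ p + 2 * m + 1 ∈ A ∧ (Fp n p m A).card = k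

/-- the new colouring -/
noncomputable def Phi (n k d p m cW : ℕ) (X Y : Finset ℕ) (φ : Finset ℕ → ℕ) (A : Finset ℕ) : ℕ :=
  if zc n p m X Y A then d + 1
  else if wc n k p m A then cW
  else if h : ∃ D ⊆ Fp n p m A, St n D ∧ D.card = k ∧ (D = X ∨ D = Y → Fp n p m A = D) then
    φ h.choose
  else 0

lemma Fp_disj {n p m : ℕ} {A B : Finset ℕ} (h : Disjoint A B) :
    Disjoint (Fp n p m A) (Fp n p m B) := by
  rw [Finset.disjoint_left] at h ⊢
  intro i hi hi'
  rw [mem_Fp] at hi hi'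
  exact h hi.2 hi'.2

lemma zc_not_disj {n p m : ℕ} {X Y A B : Finset ℕ} (hA : zc n p m X Y A) (hB : zc n p m X Y B)
    (h : Disjoint A B) : False := by
  have hE : (A ∩ Ev p m).card + (B ∩ Ev p m).card ≤ m + 1 := by
    rw [← card_Ev p m, ← card_union_of_disjoint]
    · apply card_le_card
      exact union_subset inter_subset_right inter_subset_right
    · exact h.mono inter_subset_left inter_subset_left
  have hF := Fp_disj (n := n) (p := p) (m := m) h
  rw [Finset.disjoint_left] at h hF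
  rcases hA with ⟨hpA, hA⟩ | ⟨hA1, ⟨i, hiA, hiX⟩, ⟨j, hjA, hjY⟩⟩
  · rcases hB with ⟨hpB, _⟩ | ⟨hB1, ⟨i, hiB, hiX⟩, ⟨j, hjB, hjY⟩⟩
    · exact h hpA hpB
    · rcases hA with hA | hA | hA
      · omega
      · rw [hA] at hF
        exact hF hiX hiB
      · rw [hA] at hF
        exact hF hjY hjB
  · rcases hB with ⟨hpB, hB⟩ | ⟨hB1, _, _⟩
    · rcases hB with hB | hB | hB
      · omega
      · rw [hB] at hF
        exact hF hiA hiX
      · rw [hB] at hF
        exact hF hjA hjY
    · omega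

section stepmain

variable {n k d p m : ℕ} {X Y X' Y' : Finset ℕ} {φ : Finset ℕ → ℕ}
variable (hn : n = 2 * k + d) (hk : 2 ≤ k) (hp : 1 ≤ p) (hpn : p < n) (hm : d + 3 ≤ m)

lemma Fp_pred {A : Finset ℕ} (hp : 1 ≤ p) (hpn : p < n) : p - 1 ∈ Fp n p m A ↔ p - 1 ∈ A := by
  rw [mem_Fp]
  unfold io
  rw [if_pos (by omega)]
  constructor
  · exact fun h => h.2
  · exact fun h => ⟨by omega, h⟩

lemma Fp_self {A : Finset ℕ} (hpn : p < n) : p ∈ Fp n p m A ↔ p + 2 * m + 1 ∈ A := by
  rw [mem_Fp]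
  unfold io
  rw [if_neg (by omega)]
  constructor
  · exact fun h => h.2
  · exact fun h => ⟨hpn, h⟩

include hp hpn in
lemma Fp_facts {A : Finset ℕ} (hA : St (n + (2 * m + 1)) A) :
    (∀ i ∈ Fp n p m A, i < n) ∧ (∀ i ∈ Fp n p m A, i + 1 ∈ Fp n p m A → i + 1 = p) ∧
    ¬ (0 ∈ Fp n p m A ∧ n - 1 ∈ Fp n p m A) := by
  refine ⟨fun i hi => ((mem_Fp n p m).1 hi).1, fun i hi hi' => ?_, ?_⟩
  · rw [mem_Fp] at hi hi'
    by_contra hne
    have h1 : io p m (i + 1) = io p m i + 1 := by
      unfold io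
      by_cases h : i < p
      · have h' : i + 1 < p := by omega
        rw [if_pos h, if_pos h']
      · have h' : ¬ i + 1 < p := by omega
        rw [if_neg h, if_neg h']
        omega
    rw [h1] at hi'
    exact hA.2.1 _ hi.2 hi'.2
  · rintro ⟨h0, h1⟩
    rw [mem_Fp] at h0 h1
    apply hA.2.2
    have e0 : io p m 0 = 0 := by
      unfold io; rw [if_pos (by omega)]
    have e1 : io p m (n - 1) = n + (2 * m + 1) - 1 := by
      unfold io; rw [if_neg (by omega)]; omega
    rw [e0] at h0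
    rw [e1] at h1
    exact ⟨h0.2, h1.2⟩

include hp hpn in
lemma Fp_St {A : Finset ℕ} (hA : St (n + (2 * m + 1)) A)
    (h : ¬ (p - 1 ∈ Fp n p m A ∧ p ∈ Fp n p m A)) : St n (Fp n p m A) := by
  obtain ⟨h1, h2, h3⟩ := Fp_facts (m := m) hp hpn hA
  refine ⟨h1, fun i hi hi' => ?_, h3⟩
  have h9 := h2 i hi hi'
  apply h
  constructor
  · have : p - 1 = i := by omega
    rw [this]; exact hi
  · rw [h9] at hi'; exact hi'

lemma Tp_all {A : Finset ℕ} {N : ℕ} (hA : St N A) :
    (Tp p m A).card ≤ m + 1 ∧ ((Tp p m A).card = m + 1 → Tp p m A = Ev p m) := by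
  have := card_le_tight (T := Tp p m A) (a := p) (m := m + 1)
    (fun i hi hi' => hA.2.1 i ((mem_Tp p m).1 hi).1 ((mem_Tp p m).1 hi').1)
    (fun i hi => by have := (mem_Tp p m).1 hi; omega)
  exact this

lemma Tp_odd {A : Finset ℕ} {N : ℕ} (hA : St N A) (h0 : p ∉ A) (h1 : p + 2 * m ∉ A)
    (hc : (Tp p m A).card = m) : Tp p m A = Od p m := by
  have := card_le_tight (T := Tp p m A) (a := p + 1) (m := m)
    (fun i hi hi' => hA.2.1 i ((mem_Tp p m).1 hi).1 ((mem_Tp p m).1 hi').1)
    (fun i hi => by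
      have h2 := (mem_Tp p m).1 hi
      have h3 : i ≠ p := fun h => h0 (h ▸ h2.1)
      have h4 : i ≠ p + 2 * m := fun h => h1 (h ▸ h2.1)
      omega)
  exact this.2 hc

include hn hpn hm in
lemma big_Fp {A : Finset ℕ} (hA : St (n + (2 * m + 1)) A) (hAc : A.card = k + m)
    (hz : ¬ zc n p m X Y A) : k ≤ (Fp n p m A).card := by
  have h1 := card_decomp n p m (by omega) hA.1
  obtain ⟨h2, h3⟩ := Tp_all (p := p) (m := m) hA
  by_contra hlt
  have h4 : (Tp p m A).card = m + 1 := by omega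
  have h5 := h3 h4
  apply hz
  left
  have hpA : p ∈ A := by
    have : p ∈ Tp p m A := by
      rw [h5, mem_Ev]
      exact ⟨0, by omega, by omega⟩
    exact ((mem_Tp p m).1 this).1
  refine ⟨hpA, Or.inl ?_⟩
  have h6 : Ev p m ⊆ A ∩ Ev p m := by
    intro i hi
    rw [mem_inter]
    refine ⟨?_, hi⟩
    rw [← h5] at hi
    exact ((mem_Tp p m).1 hi).1
  have h7 := card_le_card h6
  rw [card_Ev] at h7
  omega

lemma Od_disj_Ev {i : ℕ} (h : i ∈ Od p m) : i ∉ Ev p m := by
  rw [mem_Od] at h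
  rw [mem_Ev]
  rintro ⟨j, _, hj⟩
  obtain ⟨l, _, hl⟩ := h
  omega

lemma block_cases {i : ℕ} (h1 : p ≤ i) (h2 : i ≤ p + 2 * m) : i ∈ Ev p m ∨ i ∈ Od p m := by
  rcases Nat.even_or_odd (i - p) with ⟨j, hj⟩ | ⟨j, hj⟩
  · left
    rw [mem_Ev]
    exact ⟨j, by omega, by omega⟩
  · right
    rw [mem_Od]
    exact ⟨j, by omega, by omega⟩

/-- description of the special sets -/
lemma wc_facts {A : Finset ℕ} (hp : 1 ≤ p) (hpn : p < n) (hA : St (n + (2 * m + 1)) A)
    (hAc : A.card = k + m) (hw : wc n k p m A) : Tp p m A = Od p m := by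
  obtain ⟨h1, h2, h3⟩ := hw
  have h4 := card_decomp n p m (by omega) hA.1
  apply Tp_odd hA
  · intro h
    have := hA.2.1 _ h1
    apply this
    have : p - 1 + 1 = p := by omega
    rw [this]; exact h
  · intro h
    exact hA.2.1 _ h h2
  · omega

include hn hp hpn hm in
/-- neighbours of special sets -/
lemma nbr_special {A B : Finset ℕ} (hA : St (n + (2 * m + 1)) A) (hAc : A.card = k + m)
    (hB : St (n + (2 * m + 1)) B) (hBc : B.card = k + m) (hw : wc n k p m A) (hAB : Disjoint A B)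
    (hz : ¬ zc n p m X Y B) : St n (Fp n p m B) ∧ p - 1 ∉ Fp n p m B ∧ p ∉ Fp n p m B ∧
    ((∀ i ∈ Fp n p m B, i ∉ X) ∨ (∀ i ∈ Fp n p m B, i ∉ Y)) := by
  have hT := wc_facts hp hpn hA hAc hw
  obtain ⟨h1, h2, h3⟩ := hw
  rw [Finset.disjoint_left] at hAB
  have h4 : p - 1 ∉ Fp n p m B := by
    rw [Fp_pred hp hpn]; exact hAB h1
  have h5 : p ∉ Fp n p m B := by
    rw [Fp_self hpn]; exact hAB h2
  have h6 : St n (Fp n p m B) := Fp_St hp hpn hB (fun h => h4 h.1)
  refine ⟨h6, h4, h5, ?_⟩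
  -- majority
  have h7 : Tp p m B ⊆ B ∩ Ev p m := by
    intro i hi
    rw [mem_Tp] at hi
    rw [mem_inter]
    refine ⟨hi.1, ?_⟩
    rcases block_cases hi.2.1 hi.2.2 with h | h
    · exact h
    · exfalso
      rw [← hT, mem_Tp] at h
      exact hAB h.1 hi.1
  have h8 := card_le_card h7
  have h9 := card_decomp n p m (by omega) hB.1
  have h10 := two_card_le h6.2.1 h6.1
  have hmaj : m + 1 < 2 * (B ∩ Ev p m).card := by omega
  by_contra hcon
  push Not at hcon
  apply hz
  right
  exact ⟨hmaj, hcon.1, hcon.2⟩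

include hn hpn in
/-- sets whose small part is exactly `X` or `Y` -/
lemma final_pair {A B : Finset ℕ} (hA : St (n + (2 * m + 1)) A) (hAc : A.card = k + m)
    (hB : St (n + (2 * m + 1)) B) (hBc : B.card = k + m) (hAB : Disjoint A B)
    (hzA : ¬ zc n p m X Y A) (hzB : ¬ zc n p m X Y B) (hX : X.card = k) (hY : Y.card = k)
    (hFA : Fp n p m A = X) (hFB : Fp n p m B = Y) (hpX : p ∈ X) :
    Tp p m A = Od p m ∧ Tp p m B = (Ev p m).erase p := by
  have hpA : p ∉ A := fun h => hzA (Or.inl ⟨h, Or.inr (Or.inl hFA)⟩)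
  have hpB : p ∉ B := fun h => hzB (Or.inl ⟨h, Or.inr (Or.inr hFB)⟩)
  have h1 := card_decomp n p m (by omega) hA.1
  have h2 := card_decomp n p m (by omega) hB.1
  rw [hFA] at h1
  rw [hFB] at h2
  have h3 : p + 2 * m + 1 ∈ A := by
    rw [← Fp_self (n := n) (m := m) hpn, hFA]; exact hpX
  have h4 : p + 2 * m ∉ A := fun h => hA.2.1 _ h h3
  have h5 : Tp p m A = Od p m := Tp_odd hA hpA h4 (by omega)
  refine ⟨h5, ?_⟩
  apply eq_of_subset_of_card_le
  · intro i hi
    rw [mem_Tp] at hi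
    rw [mem_erase]
    refine ⟨fun h => hpB (h ▸ hi.1), ?_⟩
    rcases block_cases hi.2.1 hi.2.2 with h | h
    · exact h
    · exfalso
      rw [← h5, mem_Tp] at h
      exact (Finset.disjoint_left.1 hAB) h.1 hi.1
  · rw [card_erase_of_mem, card_Ev]
    · omega
    · rw [mem_Ev]; exact ⟨0, by omega, by omega⟩

/-- The induction step. -/
theorem step_main (hn : n = 2 * k + d) (hk : 2 ≤ k) (hp : 1 ≤ p) (hpn : p < n) (hm : d + 3 ≤ m)
    (hXs : St n X) (hXc : X.card = k) (hYs : St n Y) (hYc : Y.card = k) (hXY : Disjoint X Y)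
    (hpX : p ∈ X) (hX's : St (n + (2 * m + 1)) X') (hX'c : X'.card = k + m)
    (hY's : St (n + (2 * m + 1)) Y') (hY'c : Y'.card = k + m)
    (hX'F : Fp n p m X' = X) (hX'T : Tp p m X' = Od p m) (hY'F : Fp n p m Y' = Y)
    (hY'T : Tp p m Y' = (Ev p m).erase p)
    (h1 : ∀ A, St n A → A.card = k → φ A ≤ d) (h2 : φ X = φ Y)
    (h3 : ∀ A B, St n A → A.card = k → St n B → B.card = k → Disjoint A B → φ A = φ B →
      (A = X ∧ B = Y) ∨ (A = Y ∧ B = X))
    (cW : ℕ) (hcW : cW ≤ d)
    (h4 : (cW = φ X ∧ p - 1 ∈ Y) ∨ (∀ D, St n D → D.card = k → φ D = cW → p - 1 ∈ D ∨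
      ((∃ i ∈ D, i ∈ X) ∧ (∃ i ∈ D, i ∈ Y)))) :
    (∀ A, St (n + (2 * m + 1)) A → A.card = k + m → Phi n k d p m cW X Y φ A ≤ d + 1) ∧
    (Phi n k d p m cW X Y φ X' = Phi n k d p m cW X Y φ Y') ∧
    (∀ A B, St (n + (2 * m + 1)) A → A.card = k + m → St (n + (2 * m + 1)) B → B.card = k + m →
      Disjoint A B → Phi n k d p m cW X Y φ A = Phi n k d p m cW X Y φ B →
      (A = X' ∧ B = Y') ∨ (A = Y' ∧ B = X')) ∧
    (∀ A, St (n + (2 * m + 1)) A → A.card = k + m → Phi n k d p m cW X Y φ A = d + 1 →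
      p ∈ A ∨ ((∃ i ∈ A, i ∈ X') ∧ (∃ i ∈ A, i ∈ Y'))) := by
  -- existence of the subset for ordinary sets
  have hex : ∀ A, St (n + (2 * m + 1)) A → A.card = k + m → ¬ zc n p m X Y A →
      ¬ wc n k p m A → ∃ D ⊆ Fp n p m A, St n D ∧ D.card = k ∧ (D = X ∨ D = Y → Fp n p m A = D) := by
    intro A hA hAc hz hw
    obtain ⟨f1, f2, f3⟩ := Fp_facts (m := m) hp hpn hA
    apply exists_sub hk hp hXc hYc hXY hpX f1 f2 f3 (big_Fp hn hpn hm hA hAc hz)
    rintro ⟨g1, g2, g3⟩
    exact hw ⟨(Fp_pred hp hpn).1 g1, (Fp_self hpn).1 g2, g3⟩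
  -- value of the colouring on ordinary sets
  have hval : ∀ A, St (n + (2 * m + 1)) A → A.card = k + m → ¬ zc n p m X Y A →
      ¬ wc n k p m A → ∃ D ⊆ Fp n p m A, St n D ∧ D.card = k ∧ (D = X ∨ D = Y → Fp n p m A = D) ∧
      Phi n k d p m cW X Y φ A = φ D := by
    intro A hA hAc hz hw
    have h := hex A hA hAc hz hw
    refine ⟨h.choose, h.choose_spec.1, h.choose_spec.2.1, h.choose_spec.2.2.1,
      h.choose_spec.2.2.2, ?_⟩
    unfold Phi
    rw [if_neg hz, if_neg hw, dif_pos h]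
  have hvz : ∀ A, zc n p m X Y A → Phi n k d p m cW X Y φ A = d + 1 := by
    intro A hz
    unfold Phi
    rw [if_pos hz]
  have hvw : ∀ A, ¬ zc n p m X Y A → wc n k p m A → Phi n k d p m cW X Y φ A = cW := by
    intro A hz hw
    unfold Phi
    rw [if_neg hz, if_pos hw]
  have hle : ∀ A, St (n + (2 * m + 1)) A → A.card = k + m → ¬ zc n p m X Y A →
      Phi n k d p m cW X Y φ A ≤ d := by
    intro A hA hAc hz
    by_cases hw : wc n k p m A
    · rw [hvw A hz hw]; exact hcW
    · obtain ⟨D, _, hD2, hD3, _, hD5⟩ := hval A hA hAc hz hw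
      rw [hD5]
      exact h1 D hD2 hD3
  have hXne : ∀ i, i ∈ X → i ∉ Y := fun i hi hi' => (Finset.disjoint_left.1 hXY) hi hi'
  -- the values at `X'` and `Y'`
  have hpX' : p ∉ X' := by
    intro h
    have : p ∈ Tp p m X' := by rw [mem_Tp]; exact ⟨h, by omega, by omega⟩
    rw [hX'T] at this
    apply Od_disj_Ev this
    rw [mem_Ev]; exact ⟨0, by omega, by omega⟩
  have hpY' : p ∉ Y' := by
    intro h
    have : p ∈ Tp p m Y' := by rw [mem_Tp]; exact ⟨h, by omega, by omega⟩
    rw [hY'T] at this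
    exact (mem_erase.1 this).1 rfl
  have hzX' : ¬ zc n p m X Y X' := by
    rintro (⟨h, _⟩ | ⟨_, _, ⟨i, hi, hiY⟩⟩)
    · exact hpX' h
    · rw [hX'F] at hi
      exact hXne i hi hiY
  have hzY' : ¬ zc n p m X Y Y' := by
    rintro (⟨h, _⟩ | ⟨_, ⟨i, hi, hiX⟩, _⟩)
    · exact hpY' h
    · rw [hY'F] at hi
      exact hXne i hiX hi
  have hpred : p - 1 ∉ X := by
    intro h
    apply hXs.2.1 _ h
    have : p - 1 + 1 = p := by omega
    rw [this]; exact hpX
  have hwX' : ¬ wc n k p m X' := by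
    rintro ⟨h, _, _⟩
    rw [← Fp_pred (n := n) (m := m) hp hpn, hX'F] at h
    exact hpred h
  have hwY' : ¬ wc n k p m Y' := by
    rintro ⟨_, h, _⟩
    rw [← Fp_self (n := n) (m := m) hpn, hY'F] at h
    exact hXne p hpX h
  have hvX' : Phi n k d p m cW X Y φ X' = φ X := by
    obtain ⟨D, hD1, _, hD3, _, hD5⟩ := hval X' hX's hX'c hzX' hwX'
    rw [hD5]
    rw [hX'F] at hD1
    rw [eq_of_subset_of_card_le hD1 (by omega)]
  have hvY' : Phi n k d p m cW X Y φ Y' = φ Y := by
    obtain ⟨D, hD1, _, hD3, _, hD5⟩ := hval Y' hY's hY'c hzY' hwY'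
    rw [hD5]
    rw [hY'F] at hD1
    rw [eq_of_subset_of_card_le hD1 (by omega)]
  -- special set against ordinary set
  have hspecial : ∀ A B, St (n + (2 * m + 1)) A → A.card = k + m → St (n + (2 * m + 1)) B →
      B.card = k + m → Disjoint A B → ¬ zc n p m X Y A → wc n k p m A → ¬ zc n p m X Y B →
      ¬ wc n k p m B → Phi n k d p m cW X Y φ A ≠ Phi n k d p m cW X Y φ B := by
    intro A B hA hAc hB hBc hAB hzA hwA hzB hwB heq
    obtain ⟨g1, g2, g3, g4⟩ := nbr_special hn hp hpn hm hA hAc hB hBc hwA hAB hzB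
    obtain ⟨D, hD1, hD2, hD3, _, hD5⟩ := hval B hB hBc hzB hwB
    rw [hvw A hzA hwA, hD5] at heq
    rcases h4 with ⟨h5, h6⟩ | h5
    · rw [h5] at heq
      rcases g4 with g4 | g4
      · have hdis : Disjoint D X := by
          rw [Finset.disjoint_left]
          exact fun i hi => g4 i (hD1 hi)
        rcases h3 D X hD2 hD3 hXs hXc hdis heq.symm with ⟨_, h8⟩ | ⟨h7, _⟩
        · rw [← h8] at hXY
          exact hXne p hpX (h8 ▸ hpX)
        · rw [← h7] at h6
          exact g2 (hD1 h6)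
      · have hdis : Disjoint D Y := by
          rw [Finset.disjoint_left]
          exact fun i hi => g4 i (hD1 hi)
        rcases h3 D Y hD2 hD3 hYs hYc hdis (by rw [← heq, h2]) with ⟨h7, _⟩ | ⟨_, h8⟩
        · rw [← h7] at hpX
          exact g3 (hD1 hpX)
        · exact hXne p hpX (h8 ▸ hpX)
    · rcases h5 D hD2 hD3 heq.symm with h6 | ⟨⟨i, hi, hiX⟩, ⟨j, hj, hjY⟩⟩
      · exact g2 (hD1 h6)
      · rcases g4 with g4 | g4
        · exact g4 i (hD1 hi) hiX
        · exact g4 j (hD1 hj) hjY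
  refine ⟨?_, ?_, ?_, ?_⟩
  · intro A hA hAc
    by_cases hz : zc n p m X Y A
    · rw [hvz A hz]
    · exact (hle A hA hAc hz).trans (by omega)
  · rw [hvX', hvY', h2]
  · intro A B hA hAc hB hBc hAB heq
    by_cases hzA : zc n p m X Y A
    · by_cases hzB : zc n p m X Y B
      · exact (zc_not_disj hzA hzB hAB).elim
      · have := hle B hB hBc hzB
        rw [hvz A hzA] at heq
        omega
    · by_cases hzB : zc n p m X Y B
      · have := hle A hA hAc hzA
        rw [hvz B hzB] at heq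
        omega
      · by_cases hwA : wc n k p m A
        · by_cases hwB : wc n k p m B
          · exact ((Finset.disjoint_left.1 hAB) hwA.1 hwB.1).elim
          · exact (hspecial A B hA hAc hB hBc hAB hzA hwA hzB hwB heq).elim
        · by_cases hwB : wc n k p m B
          · exact (hspecial B A hB hBc hA hAc hAB.symm hzB hwB hzA hwA heq.symm).elim
          · obtain ⟨D1, a1, a2, a3, a4, a5⟩ := hval A hA hAc hzA hwA
            obtain ⟨D2, b1, b2, b3, b4, b5⟩ := hval B hB hBc hzB hwB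
            rw [a5, b5] at heq
            have hdis : Disjoint D1 D2 := (Fp_disj hAB).mono a1 b1
            rcases h3 D1 D2 a2 a3 b2 b3 hdis heq with ⟨e1, e2⟩ | ⟨e1, e2⟩
            · left
              have f1 := a4 (Or.inl e1)
              have f2 := b4 (Or.inr e2)
              rw [e1] at f1
              rw [e2] at f2
              obtain ⟨g1, g2⟩ := final_pair hn hpn hA hAc hB hBc hAB hzA hzB hXc hYc f1 f2 hpX
              constructor
              · exact ext_FT n p m (by omega) hA.1 hX's.1 (by rw [f1, hX'F]) (by rw [g1, hX'T])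
              · exact ext_FT n p m (by omega) hB.1 hY's.1 (by rw [f2, hY'F]) (by rw [g2, hY'T])
            · right
              have f1 := a4 (Or.inr e1)
              have f2 := b4 (Or.inl e2)
              rw [e1] at f1
              rw [e2] at f2
              obtain ⟨g1, g2⟩ := final_pair hn hpn hB hBc hA hAc hAB.symm hzB hzA hXc hYc f2
                f1 hpX
              constructor
              · exact ext_FT n p m (by omega) hA.1 hY's.1 (by rw [f1, hY'F]) (by rw [g2, hY'T])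
              · exact ext_FT n p m (by omega) hB.1 hX's.1 (by rw [f2, hX'F]) (by rw [g1, hX'T])
  · intro A hA hAc heq
    by_cases hz : zc n p m X Y A
    · rcases hz with ⟨h, _⟩ | ⟨_, ⟨i, hi, hiX⟩, ⟨j, hj, hjY⟩⟩
      · exact Or.inl h
      · right
        rw [mem_Fp] at hi hj
        refine ⟨⟨_, hi.2, ?_⟩, ⟨_, hj.2, ?_⟩⟩
        · rw [← hX'F, mem_Fp] at hiX
          exact hiX.2
        · rw [← hY'F, mem_Fp] at hjY
          exact hjY.2
    · have := hle A hA hAc hz
      omega

end stepmain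

/-- number of elements of `Z` below `i` -/
def cz (Z : Finset ℕ) (i : ℕ) : ℕ := (Z.filter (· < i)).card

/-- the even class of the complement of `Z` -/
def XX (n : ℕ) (Z : Finset ℕ) : Finset ℕ :=
  (range n).filter (fun i => i ∉ Z ∧ (i + cz Z i) % 2 = 0)

/-- the odd class of the complement of `Z` -/
def YY (n : ℕ) (Z : Finset ℕ) : Finset ℕ :=
  (range n).filter (fun i => i ∉ Z ∧ (i + cz Z i) % 2 = 1)

lemma mem_XX {n : ℕ} {Z : Finset ℕ} {i : ℕ} :
    i ∈ XX n Z ↔ i < n ∧ i ∉ Z ∧ (i + cz Z i) % 2 = 0 := by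
  unfold XX
  rw [mem_filter, mem_range]

lemma mem_YY {n : ℕ} {Z : Finset ℕ} {i : ℕ} :
    i ∈ YY n Z ↔ i < n ∧ i ∉ Z ∧ (i + cz Z i) % 2 = 1 := by
  unfold YY
  rw [mem_filter, mem_range]

lemma cz_succ_mem {Z : Finset ℕ} {i : ℕ} (h : i ∈ Z) : cz Z (i + 1) = cz Z i + 1 := by
  unfold cz
  have : Z.filter (· < i + 1) = insert i (Z.filter (· < i)) := by
    ext j
    simp only [mem_filter, mem_insert]
    constructor
    · rintro ⟨h1, h2⟩
      rcases Nat.lt_succ_iff_lt_or_eq.1 h2 with h3 | h3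
      · exact Or.inr ⟨h1, h3⟩
      · exact Or.inl h3
    · rintro (rfl | ⟨h1, h2⟩)
      · exact ⟨h, by omega⟩
      · exact ⟨h1, by omega⟩
  rw [this, card_insert_of_notMem]
  simp

lemma cz_succ_not {Z : Finset ℕ} {i : ℕ} (h : i ∉ Z) : cz Z (i + 1) = cz Z i := by
  unfold cz
  congr 1
  ext j
  simp only [mem_filter]
  constructor
  · rintro ⟨h1, h2⟩
    refine ⟨h1, ?_⟩
    rcases Nat.lt_succ_iff_lt_or_eq.1 h2 with h3 | h3
    · exact h3
    · exact absurd (h3 ▸ h1) h
  · rintro ⟨h1, h2⟩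
    exact ⟨h1, by omega⟩

lemma cz_all {Z : Finset ℕ} {i : ℕ} (h : ∀ z ∈ Z, z < i) : cz Z i = Z.card := by
  unfold cz
  congr 1
  ext j
  simp only [mem_filter]
  exact ⟨fun h1 => h1.1, fun h1 => ⟨h1, h j h1⟩⟩

lemma cz_zero (Z : Finset ℕ) : cz Z 0 = 0 := by
  unfold cz
  simp

lemma XX_disj (n : ℕ) (Z : Finset ℕ) : Disjoint (XX n Z) (YY n Z) := by
  rw [Finset.disjoint_left]
  intro i hi hi'
  rw [mem_XX] at hi
  rw [mem_YY] at hi'
  omega

lemma card_aux (Z : Finset ℕ) (i : ℕ) :
    (XX i Z).card = (YY i Z).card + (i + cz Z i) % 2 ∧ (XX i Z).card + (YY i Z).card + cz Z i = i := by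
  induction i with
  | zero => simp [XX, YY, cz_zero]
  | succ i ih =>
    obtain ⟨h1, h2⟩ := ih
    by_cases hz : i ∈ Z
    · have hX : XX (i + 1) Z = XX i Z := by
        ext j
        rw [mem_XX, mem_XX]
        constructor
        · rintro ⟨a, b, c⟩
          refine ⟨?_, b, c⟩
          rcases Nat.lt_succ_iff_lt_or_eq.1 a with h | h
          · exact h
          · exact absurd (h ▸ hz) b
        · rintro ⟨a, b, c⟩
          exact ⟨by omega, b, c⟩
      have hY : YY (i + 1) Z = YY i Z := by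
        ext j
        rw [mem_YY, mem_YY]
        constructor
        · rintro ⟨a, b, c⟩
          refine ⟨?_, b, c⟩
          rcases Nat.lt_succ_iff_lt_or_eq.1 a with h | h
          · exact h
          · exact absurd (h ▸ hz) b
        · rintro ⟨a, b, c⟩
          exact ⟨by omega, b, c⟩
      rw [hX, hY, cz_succ_mem hz]
      omega
    · rw [cz_succ_not hz]
      rcases Nat.mod_two_eq_zero_or_one (i + cz Z i) with hpar | hpar
      · have hX : XX (i + 1) Z = insert i (XX i Z) := by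
          ext j
          rw [mem_insert, mem_XX, mem_XX]
          constructor
          · rintro ⟨a, b, c⟩
            rcases Nat.lt_succ_iff_lt_or_eq.1 a with h | h
            · exact Or.inr ⟨h, b, c⟩
            · exact Or.inl h
          · rintro (rfl | ⟨a, b, c⟩)
            · exact ⟨by omega, hz, hpar⟩
            · exact ⟨by omega, b, c⟩
        have hY : YY (i + 1) Z = YY i Z := by
          ext j
          rw [mem_YY, mem_YY]
          constructor
          · rintro ⟨a, b, c⟩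
            refine ⟨?_, b, c⟩
            rcases Nat.lt_succ_iff_lt_or_eq.1 a with h | h
            · exact h
            · subst h; omega
          · rintro ⟨a, b, c⟩
            exact ⟨by omega, b, c⟩
        rw [hX, hY, card_insert_of_notMem (by rw [mem_XX]; omega)]
        omega
      · have hY : YY (i + 1) Z = insert i (YY i Z) := by
          ext j
          rw [mem_insert, mem_YY, mem_YY]
          constructor
          · rintro ⟨a, b, c⟩
            rcases Nat.lt_succ_iff_lt_or_eq.1 a with h | h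
            · exact Or.inr ⟨h, b, c⟩
            · exact Or.inl h
          · rintro (rfl | ⟨a, b, c⟩)
            · exact ⟨by omega, hz, hpar⟩
            · exact ⟨by omega, b, c⟩
        have hX : XX (i + 1) Z = XX i Z := by
          ext j
          rw [mem_XX, mem_XX]
          constructor
          · rintro ⟨a, b, c⟩
            refine ⟨?_, b, c⟩
            rcases Nat.lt_succ_iff_lt_or_eq.1 a with h | h
            · exact h
            · subst h; omega
          · rintro ⟨a, b, c⟩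
            exact ⟨by omega, b, c⟩
        rw [hX, hY, card_insert_of_notMem (by rw [mem_YY]; omega)]
        omega

lemma XX_facts {n k d : ℕ} {Z : Finset ℕ} (hn : n = 2 * k + d) (hZ : Z.card = d)
    (hZn : ∀ z ∈ Z, z < n) (hn1 : 1 ≤ n) : St n (XX n Z) ∧ (XX n Z).card = k ∧ St n (YY n Z) ∧
    (YY n Z).card = k := by
  have hc := card_aux Z n
  rw [cz_all hZn, hZ] at hc
  refine ⟨⟨fun i hi => (mem_XX.1 hi).1, ?_, ?_⟩, by omega,
    ⟨fun i hi => (mem_YY.1 hi).1, ?_, ?_⟩, by omega⟩
  · intro i hi hi'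
    rw [mem_XX] at hi hi'
    rw [cz_succ_not hi.2.1] at hi'
    omega
  · rintro ⟨_, h1⟩
    rw [mem_XX] at h1
    obtain ⟨h2, h3, h4⟩ := h1
    have h5 := cz_succ_not h3
    have h6 : n - 1 + 1 = n := by omega
    rw [h6, cz_all hZn, hZ] at h5
    omega
  · intro i hi hi'
    rw [mem_YY] at hi hi'
    rw [cz_succ_not hi.2.1] at hi'
    omega
  · rintro ⟨h0, _⟩
    rw [mem_YY, cz_zero] at h0
    omega

/-- the property proved by induction -/
def Good (d n k : ℕ) (Z : Finset ℕ) : Prop :=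
  ∃ φ : Finset ℕ → ℕ,
    (∀ A, St n A → A.card = k → φ A ≤ d) ∧ φ (XX n Z) = φ (YY n Z) ∧
    (∀ A B, St n A → A.card = k → St n B → B.card = k → Disjoint A B → φ A = φ B →
      (A = XX n Z ∧ B = YY n Z) ∨ (A = YY n Z ∧ B = XX n Z)) ∧
    (∀ p ∈ Z, (∀ z ∈ Z, z ≤ p) → ∃ c ≤ d, ∀ D, St n D → D.card = k → φ D = c →
      p ∈ D ∨ ((∃ i ∈ D, i ∈ XX n Z) ∧ (∃ i ∈ D, i ∈ YY n Z)))

lemma good_zero {k : ℕ} (hk : 1 ≤ k) : Good 0 (2 * k) k ∅ := by
  have hcz : ∀ i, cz ∅ i = 0 := by intro i; unfold cz; simp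
  have key : ∀ A, St (2 * k) A → A.card = k → A = XX (2 * k) ∅ ∨ A = YY (2 * k) ∅ := by
    intro A hA hAc
    by_cases h : 2 * k - 1 ∈ A
    · right
      have h0 : 0 ∉ A := fun h0 => hA.2.2 ⟨h0, h⟩
      have := (card_le_tight (T := A) (a := 1) (m := k) hA.2.1 (fun i hi => by
        have h1 := hA.1 i hi
        have h2 : i ≠ 0 := fun h => h0 (h ▸ hi)
        omega)).2 hAc
      rw [this]
      ext i
      rw [mem_image, mem_YY, hcz]
      constructor
      · rintro ⟨j, hj, rfl⟩
        rw [mem_range] at hj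
        exact ⟨by omega, by simp, by omega⟩
      · rintro ⟨h1, _, h2⟩
        exact ⟨i / 2, mem_range.2 (by omega), by omega⟩
    · left
      have := (card_le_tight (T := A) (a := 0) (m := k) hA.2.1 (fun i hi => by
        have h1 := hA.1 i hi
        have h2 : i ≠ 2 * k - 1 := fun h' => h (h' ▸ hi)
        omega)).2 hAc
      rw [this]
      ext i
      rw [mem_image, mem_XX, hcz]
      constructor
      · rintro ⟨j, hj, rfl⟩
        rw [mem_range] at hj
        exact ⟨by omega, by simp, by omega⟩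
      · rintro ⟨h1, _, h2⟩
        exact ⟨i / 2, mem_range.2 (by omega), by omega⟩
  refine ⟨fun _ => 0, fun _ _ _ => le_rfl, rfl, ?_, ?_⟩
  · intro A B hA hAc hB hBc hAB _
    have hne : ∀ A B : Finset ℕ, A.card = k → Disjoint A B → A ≠ B := by
      intro A B hAc hAB h
      rw [← h, disjoint_self] at hAB
      rw [hAB] at hAc
      simp at hAc
      omega
    rcases key A hA hAc with h1 | h1 <;> rcases key B hB hBc with h2 | h2
    · exact absurd (h1.trans h2.symm) (hne A B hAc hAB)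
    · exact Or.inl ⟨h1, h2⟩
    · exact Or.inr ⟨h1, h2⟩
    · exact absurd (h1.trans h2.symm) (hne A B hAc hAB)
  · intro p hp
    simp at hp

/-- length of the arc free of `Z` needed after the last element of `Z` -/
def L : ℕ → ℕ
  | 0 => 4
  | d + 1 => L d + (2 * (d + 3) + 1)

lemma L_ge (d : ℕ) : 4 ≤ L d := by
  induction d with
  | zero => exact le_rfl
  | succ d ih => unfold L; omega

lemma good_step {d n k p m : ℕ} {Z : Finset ℕ} (hn : n = 2 * k + d) (hk : 2 ≤ k) (hZ : Z.card = d)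
    (hp : 1 ≤ p) (hZp : ∀ z ∈ Z, z < p) (hpn : p < n) (hm : d + 3 ≤ m) (hg : Good d n k Z) :
    Good (d + 1) (n + (2 * m + 1)) (k + m) (insert p Z) := by
  have hpZ : p ∉ Z := fun h => by have := hZp p h; omega
  have hcard : (insert p Z).card = d + 1 := by rw [card_insert_of_notMem hpZ, hZ]
  obtain ⟨hXs, hXc, hYs, hYc⟩ := XX_facts (Z := Z) hn hZ (fun z hz => by have := hZp z hz; omega)
    (by omega)
  obtain ⟨hX's, hX'c, hY's, hY'c⟩ := XX_facts (n := n + (2 * m + 1)) (k := k + m) (d := d + 1)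
    (Z := insert p Z) (by omega) hcard (fun z hz => by
      rcases mem_insert.1 hz with rfl | hz
      · omega
      · have := hZp z hz; omega) (by omega)
  have hXY := XX_disj n Z
  -- counting below and above `p`
  have c1 : ∀ i, i < p → cz (insert p Z) i = cz Z i := by
    intro i hi
    unfold cz
    congr 1
    ext j
    simp only [mem_filter, mem_insert]
    constructor
    · rintro ⟨rfl | h1, h2⟩
      · omega
      · exact ⟨h1, h2⟩
    · rintro ⟨h1, h2⟩
      exact ⟨Or.inr h1, h2⟩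
  have c2 : ∀ i, p < i → cz (insert p Z) i = d + 1 := by
    intro i hi
    rw [cz_all, hcard]
    intro z hz
    rcases mem_insert.1 hz with rfl | hz
    · exact hi
    · have := hZp z hz; omega
  have c3 : ∀ i, p ≤ i → cz Z i = d := by
    intro i hi
    rw [cz_all, hZ]
    intro z hz
    have := hZp z hz; omega
  have z1 : ∀ i, i < p → (i ∉ insert p Z ↔ i ∉ Z) := by
    intro i hi
    rw [mem_insert, not_or]
    exact ⟨fun h => h.2, fun h => ⟨by omega, h⟩⟩
  have z2 : ∀ i, p < i → i ∉ insert p Z := by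
    intro i hi h
    rcases mem_insert.1 h with rfl | h
    · omega
    · have := hZp i h; omega
  have z3 : ∀ i, p ≤ i → i ∉ Z := by
    intro i hi h
    have := hZp i h; omega
  have FX : Fp n p m (XX (n + (2 * m + 1)) (insert p Z)) = XX n Z := by
    ext i
    rw [mem_Fp, mem_XX, mem_XX]
    unfold io
    by_cases hi : i < p
    · rw [if_pos hi, z1 i hi, c1 i hi]
      constructor
      · rintro ⟨a, _, b⟩; exact ⟨a, b⟩
      · rintro ⟨a, b⟩; exact ⟨a, by omega, b⟩
    · rw [if_neg hi, c2 _ (by omega), c3 i (by omega)]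
      constructor
      · rintro ⟨a, _, _, b⟩; exact ⟨a, z3 i (by omega), by omega⟩
      · rintro ⟨a, _, b⟩; exact ⟨a, by omega, z2 _ (by omega), by omega⟩
  have FY : Fp n p m (YY (n + (2 * m + 1)) (insert p Z)) = YY n Z := by
    ext i
    rw [mem_Fp, mem_YY, mem_YY]
    unfold io
    by_cases hi : i < p
    · rw [if_pos hi, z1 i hi, c1 i hi]
      constructor
      · rintro ⟨a, _, b⟩; exact ⟨a, b⟩
      · rintro ⟨a, b⟩; exact ⟨a, by omega, b⟩
    · rw [if_neg hi, c2 _ (by omega), c3 i (by omega)]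
      constructor
      · rintro ⟨a, _, _, b⟩; exact ⟨a, z3 i (by omega), by omega⟩
      · rintro ⟨a, _, b⟩; exact ⟨a, by omega, z2 _ (by omega), by omega⟩
  obtain ⟨φ, g1, g2, g3, g4⟩ := hg
  -- the colour of the special sets, in case `p - 1 ∈ Z`
  have hcase : p - 1 ∈ Z → ∃ c ≤ d, ∀ D, St n D → D.card = k → φ D = c →
      p - 1 ∈ D ∨ ((∃ i ∈ D, i ∈ XX n Z) ∧ (∃ i ∈ D, i ∈ YY n Z)) := by
    intro h
    exact g4 (p - 1) h (fun z hz => by have := hZp z hz; omega)
  rcases Nat.mod_two_eq_zero_or_one (p + d) with hpar | hpar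
  · -- `p ∈ XX n Z`
    have hpX : p ∈ XX n Z := by
      rw [mem_XX, c3 p le_rfl]
      exact ⟨hpn, hpZ, hpar⟩
    have TX : Tp p m (XX (n + (2 * m + 1)) (insert p Z)) = Od p m := by
      ext i
      rw [mem_Tp, mem_XX, mem_Od]
      constructor
      · rintro ⟨⟨_, h2, h3⟩, h4, h5⟩
        have hne : i ≠ p := fun h => h2 (h ▸ mem_insert_self _ _)
        rw [c2 i (by omega)] at h3
        exact ⟨(i - p - 1) / 2, by omega, by omega⟩
      · rintro ⟨j, hj, rfl⟩
        rw [c2 _ (by omega)]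
        exact ⟨⟨by omega, z2 _ (by omega), by omega⟩, by omega, by omega⟩
    have TY : Tp p m (YY (n + (2 * m + 1)) (insert p Z)) = (Ev p m).erase p := by
      ext i
      rw [mem_Tp, mem_YY, mem_erase, mem_Ev]
      constructor
      · rintro ⟨⟨_, h2, h3⟩, h4, h5⟩
        have hne : i ≠ p := fun h => h2 (h ▸ mem_insert_self _ _)
        rw [c2 i (by omega)] at h3
        exact ⟨hne, (i - p) / 2, by omega, by omega⟩
      · rintro ⟨hne, j, hj, rfl⟩
        rw [c2 _ (by omega)]
        exact ⟨⟨by omega, z2 _ (by omega), by omega⟩, by omega, by omega⟩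
    obtain ⟨cW, hcW, h4⟩ : ∃ cW ≤ d, (cW = φ (XX n Z) ∧ p - 1 ∈ YY n Z) ∨
        (∀ D, St n D → D.card = k → φ D = cW → p - 1 ∈ D ∨
          ((∃ i ∈ D, i ∈ XX n Z) ∧ (∃ i ∈ D, i ∈ YY n Z))) := by
      by_cases h : p - 1 ∈ Z
      · obtain ⟨c, hc, h'⟩ := hcase h
        exact ⟨c, hc, Or.inr h'⟩
      · refine ⟨φ (XX n Z), g1 _ hXs hXc, Or.inl ⟨rfl, ?_⟩⟩
        rw [mem_YY]
        refine ⟨by omega, h, ?_⟩
        have h5 := cz_succ_not h
        have h6 : p - 1 + 1 = p := by omega
        rw [h6, c3 p le_rfl] at h5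
        omega
    obtain ⟨r1, r2, r3, r4⟩ := step_main hn hk hp hpn hm hXs hXc hYs hYc hXY hpX hX's hX'c hY's
      hY'c FX TX FY TY g1 g2 g3 cW hcW h4
    refine ⟨_, r1, r2, r3, ?_⟩
    intro q hq hqmax
    have hqp : q = p := by
      rcases mem_insert.1 hq with h | h
      · exact h
      · have := hZp q h
        have := hqmax p (mem_insert_self _ _)
        omega
    subst hqp
    exact ⟨d + 1, le_rfl, r4⟩
  · -- `p ∈ YY n Z`
    have hpX : p ∈ YY n Z := by
      rw [mem_YY, c3 p le_rfl]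
      exact ⟨hpn, hpZ, hpar⟩
    have TX : Tp p m (YY (n + (2 * m + 1)) (insert p Z)) = Od p m := by
      ext i
      rw [mem_Tp, mem_YY, mem_Od]
      constructor
      · rintro ⟨⟨_, h2, h3⟩, h4, h5⟩
        have hne : i ≠ p := fun h => h2 (h ▸ mem_insert_self _ _)
        rw [c2 i (by omega)] at h3
        exact ⟨(i - p - 1) / 2, by omega, by omega⟩
      · rintro ⟨j, hj, rfl⟩
        rw [c2 _ (by omega)]
        exact ⟨⟨by omega, z2 _ (by omega), by omega⟩, by omega, by omega⟩
    have TY : Tp p m (XX (n + (2 * m + 1)) (insert p Z)) = (Ev p m).erase p := by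
      ext i
      rw [mem_Tp, mem_XX, mem_erase, mem_Ev]
      constructor
      · rintro ⟨⟨_, h2, h3⟩, h4, h5⟩
        have hne : i ≠ p := fun h => h2 (h ▸ mem_insert_self _ _)
        rw [c2 i (by omega)] at h3
        exact ⟨hne, (i - p) / 2, by omega, by omega⟩
      · rintro ⟨hne, j, hj, rfl⟩
        rw [c2 _ (by omega)]
        exact ⟨⟨by omega, z2 _ (by omega), by omega⟩, by omega, by omega⟩
    obtain ⟨cW, hcW, h4⟩ : ∃ cW ≤ d, (cW = φ (YY n Z) ∧ p - 1 ∈ XX n Z) ∨
        (∀ D, St n D → D.card = k → φ D = cW → p - 1 ∈ D ∨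
          ((∃ i ∈ D, i ∈ YY n Z) ∧ (∃ i ∈ D, i ∈ XX n Z))) := by
      by_cases h : p - 1 ∈ Z
      · obtain ⟨c, hc, h'⟩ := hcase h
        exact ⟨c, hc, Or.inr (fun D a b e => (h' D a b e).imp id And.symm)⟩
      · refine ⟨φ (YY n Z), g1 _ hYs hYc, Or.inl ⟨rfl, ?_⟩⟩
        rw [mem_XX]
        refine ⟨by omega, h, ?_⟩
        have h5 := cz_succ_not h
        have h6 : p - 1 + 1 = p := by omega
        rw [h6, c3 p le_rfl] at h5
        omega
    obtain ⟨r1, r2, r3, r4⟩ := step_main hn hk hp hpn hm hYs hYc hXs hXc hXY.symm hpX hY's hY'c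
      hX's hX'c FY TX FX TY g1 g2.symm (fun A B a b c d e f => (g3 A B a b c d e f).symm)
      cW hcW h4
    refine ⟨_, r1, r2.symm, fun A B a b c d e f => (r3 A B a b c d e f).symm, ?_⟩
    intro q hq hqmax
    have hqp : q = p := by
      rcases mem_insert.1 hq with h | h
      · exact h
      · have := hZp q h
        have := hqmax p (mem_insert_self _ _)
        omega
    subst hqp
    exact ⟨d + 1, le_rfl, fun D a b e => (r4 D a b e).imp id And.symm⟩

/-- The colouring exists as soon as the last element of `Z` is followed by a long free arc. -/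
theorem good_all (d : ℕ) : ∀ (n k : ℕ) (Z : Finset ℕ), n = 2 * k + d → 1 ≤ k → Z.card = d →
    (∀ z ∈ Z, 1 ≤ z) → (∀ z ∈ Z, z + L d < n) → Good d n k Z := by
  induction d with
  | zero =>
    intro n k Z hn hk hZ _ _
    rw [card_eq_zero] at hZ
    subst hZ
    rw [hn]
    exact good_zero hk
  | succ d ih =>
    intro n k Z hn hk hZ h1 h2
    have hne : Z.Nonempty := by rw [← card_pos]; omega
    set p := Z.max' hne with hp
    have hpZ : p ∈ Z := Z.max'_mem hne
    have hmax : ∀ z ∈ Z, z ≤ p := fun z hz => Z.le_max' z hz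
    have hp1 := h1 p hpZ
    have hp2 := h2 p hpZ
    have hL4 := L_ge d
    have hLs : L (d + 1) = L d + (2 * (d + 3) + 1) := rfl
    rw [hLs] at hp2
    have hZe : (Z.erase p).card = d := by rw [card_erase_of_mem hpZ]; omega
    have hlt : ∀ z ∈ Z.erase p, z < p := by
      intro z hz
      rw [mem_erase] at hz
      exact lt_of_le_of_ne (hmax z hz.2) hz.1
    -- number of elements of `Z` is at most `p`
    have hdp : d + 1 ≤ p := by
      have hsub : Z ⊆ Finset.Icc 1 p := by
        intro z hz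
        rw [Finset.mem_Icc]
        exact ⟨h1 z hz, hmax z hz⟩
      have := card_le_card hsub
      rw [Nat.card_Icc] at this
      omega
    obtain ⟨k0, hk0⟩ : ∃ k0, k = k0 + (d + 3) := ⟨k - (d + 3), by omega⟩
    obtain ⟨n0, hn0⟩ : ∃ n0, n = n0 + (2 * (d + 3) + 1) := ⟨n - (2 * (d + 3) + 1), by omega⟩
    have hg := ih n0 k0 (Z.erase p) (by omega) (by omega) hZe
      (fun z hz => h1 z (mem_of_mem_erase hz))
      (fun z hz => by have := hlt z hz; omega)
    have := good_step (m := d + 3) (p := p) (by omega) (by omega) hZe (by omega) hlt (by omega)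
      le_rfl hg
    rw [insert_erase hpZ] at this
    rw [hn0, hk0]
    exact this

end Pool.Agent.helper22.Col
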