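import Mathlib

set_option autoImplicit false

open Finset Classical

namespace Pool.Agent.helper22.Rec

variable {V : Type} {r : ℕ}

/-- neighbours of `w` in `U` -/
noncomputable def nb (G : SimpleGraph V) (U : Finset V) (w : V) : Finset V :=
  U.filter (fun u => G.Adj w u)

lemma mem_nb (G : SimpleGraph V) {U : Finset V} {w u : V} :
    u ∈ nb G U w ↔ u ∈ U ∧ G.Adj w u := by
  unfold nb; rw [mem_filter]

/-! ### The weight function -/

section weight

variable [Fintype V] (G : SimpleGraph V)

/-- `min a b` as the number of common layers -/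
lemma min_eq_card (a b M : ℕ) (ha : a ≤ M) :
    min a b = ((range M).filter (fun s => s < a ∧ s < b)).card := by
  have : (range M).filter (fun s => s < a ∧ s < b) = range (min a b) := by
    ext s
    simp only [mem_filter, mem_range, lt_min_iff]
    constructor
    · rintro ⟨_, h⟩; exact h
    · rintro ⟨h1, h2⟩; exact ⟨by omega, h1, h2⟩
  rw [this, card_range]

lemma layer_cake {D : ℕ} (hS : ∀ U : Finset V, ∑ w ∈ U, (nb G U w).card ≤ D * U.card)
    (τ : V → ℕ) : ∑ w, ∑ u ∈ nb G univ w, min (τ u) (τ w) ≤ D * ∑ w, τ w := by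
  set M := ∑ w, τ w with hM
  have hτ : ∀ w, τ w ≤ M := fun w => single_le_sum (fun _ _ => Nat.zero_le _) (mem_univ w)
  have h1 : ∀ w, ∑ u ∈ nb G univ w, min (τ u) (τ w) =
      ∑ s ∈ range M, if s < τ w then (nb G (univ.filter (fun v => s < τ v)) w).card else 0 := by
    intro w
    have : ∀ u ∈ nb G univ w, min (τ u) (τ w) =
        ∑ s ∈ range M, if s < τ u ∧ s < τ w then 1 else 0 := by
      intro u _
      rw [min_eq_card _ _ M (hτ u), card_filter]
    rw [sum_congr rfl this, sum_comm]
    apply sum_congr rfl
    intro s _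
    split_ifs with hs
    · rw [← card_filter]
      congr 1
      ext u
      simp only [mem_filter, mem_nb, mem_univ, true_and]
      tauto
    · apply sum_eq_zero
      intro u _
      rw [if_neg]
      tauto
  have h2 : ∑ w, ∑ u ∈ nb G univ w, min (τ u) (τ w) =
      ∑ s ∈ range M, ∑ w ∈ univ.filter (fun v => s < τ v),
        (nb G (univ.filter (fun v => s < τ v)) w).card := by
    rw [sum_congr rfl (fun w _ => h1 w), sum_comm]
    apply sum_congr rfl
    intro s _
    rw [sum_filter]
  rw [h2]
  calc ∑ s ∈ range M, ∑ w ∈ univ.filter (fun v => s < τ v),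
        (nb G (univ.filter (fun v => s < τ v)) w).card
      ≤ ∑ s ∈ range M, D * (univ.filter (fun v => s < τ v)).card :=
        sum_le_sum (fun s _ => hS _)
    _ = D * ∑ w, τ w := by
        rw [← mul_sum]
        congr 1
        simp_rw [card_filter]
        rw [sum_comm]
        apply sum_congr rfl
        intro w _
        rw [← card_filter]
        have : (range M).filter (fun s => s < τ w) = range (τ w) := by
          ext s
          simp only [mem_filter, mem_range]
          constructor
          · rintro ⟨_, h⟩; exact h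
          · intro h; exact ⟨lt_of_lt_of_le h (hτ w), h⟩
        rw [this, card_range]

/-- The weight function `τ`. -/
theorem exists_weight {D : ℕ} (hD : D + 1 ≤ r)
    (hS : ∀ U : Finset V, ∑ w ∈ U, (nb G U w).card ≤ D * U.card) :
    ∃ τ : V → ℕ, (∀ w, 1 + ∑ u ∈ nb G univ w, min (τ u) (τ w) ≤ r * τ w) ∧
      ∑ w, τ w ≤ r * Fintype.card V := by
  let Sub : (V → ℕ) → Prop := fun τ =>
    ∀ w, r * (τ w - 1) ≤ ∑ u ∈ nb G univ w, min (τ u) (τ w - 1)
  have hb : ∀ τ, Sub τ → ∑ w, τ w ≤ r * Fintype.card V := by
    intro τ hτ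
    have h1 : ∑ w, r * (τ w - 1) ≤ ∑ w, ∑ u ∈ nb G univ w, min (τ u) (τ w) := by
      apply sum_le_sum
      intro w _
      refine (hτ w).trans (sum_le_sum (fun u _ => ?_))
      exact min_le_min le_rfl (Nat.sub_le _ _)
    have h2 := layer_cake G hS τ
    have h3 : ∑ w, r * τ w ≤ ∑ w, (r * (τ w - 1) + r) := by
      apply sum_le_sum
      intro w _
      calc r * τ w ≤ r * (τ w - 1 + 1) := Nat.mul_le_mul_left _ (by omega)
        _ = _ := by ring
    rw [sum_add_distrib, ← mul_sum, sum_const, card_univ, smul_eq_mul] at h3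
    have h4 : (D + 1) * ∑ w, τ w ≤ r * ∑ w, τ w := Nat.mul_le_mul_right _ hD
    have h5 : (D + 1) * ∑ w, τ w = D * ∑ w, τ w + ∑ w, τ w := by ring
    have h6 : Fintype.card V * r = r * Fintype.card V := mul_comm _ _
    omega
  let P : ℕ → Prop := fun m => ∃ τ, Sub τ ∧ ∑ w, τ w = m
  have hP0 : P 0 := ⟨fun _ => 0, fun w => by simp, by simp⟩
  have hPb : ∀ m, P m → m ≤ r * Fintype.card V := by
    rintro m ⟨τ, hτ, rfl⟩
    exact hb τ hτ
  obtain ⟨τ, hτ, hm⟩ := Nat.findGreatest_spec (P := P) (Nat.zero_le _) hP0
  refine ⟨τ, fun w => ?_, hb τ hτ⟩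
  by_contra hcon
  push Not at hcon
  set τ' : V → ℕ := Function.update τ w (τ w + 1) with hτ'
  have hle : ∀ v, τ v ≤ τ' v := by
    intro v
    by_cases hv : v = w
    · subst hv; simp [hτ']
    · simp [hτ', hv]
  have hsub : Sub τ' := by
    intro v
    by_cases hv : v = w
    · subst hv
      have h1 : τ' v = τ v + 1 := by simp [hτ']
      rw [h1, Nat.add_sub_cancel]
      calc r * τ v ≤ ∑ u ∈ nb G univ v, min (τ u) (τ v) := by omega
        _ ≤ _ := sum_le_sum (fun u _ => min_le_min (hle u) le_rfl)
    · have h1 : τ' v = τ v := by simp [hτ', hv]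
      rw [h1]
      exact (hτ v).trans (sum_le_sum (fun u _ => min_le_min (hle u) le_rfl))
  have hsum : ∑ v, τ' v = ∑ v, τ v + 1 := by
    rw [hτ', ← add_sum_erase univ _ (mem_univ w), ← add_sum_erase univ τ (mem_univ w)]
    rw [Function.update_self]
    have : ∑ x ∈ univ.erase w, Function.update τ w (τ w + 1) x = ∑ x ∈ univ.erase w, τ x := by
      apply sum_congr rfl
      intro x hx
      rw [Function.update_of_ne (ne_of_mem_erase hx)]
    rw [this]
    ring
  have h3 : P (∑ v, τ' v) := ⟨τ', hsub, rfl⟩
  have h4 : ∑ v, τ' v ≤ Nat.findGreatest P (r * Fintype.card V) :=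
    Nat.le_findGreatest (hPb _ h3) h3
  rw [← hm, hsum] at h4
  exact Nat.not_succ_le_self _ h4

end weight

/-! ### Recolouring sequences -/

section seq

variable (G : SimpleGraph V)

/-- `c` is proper on `W` -/
def ProperOn (W : Finset V) (c : V → Fin (r + 1)) : Prop :=
  ∀ u ∈ W, ∀ v ∈ W, G.Adj u v → c u ≠ c v

/-- one move -/
noncomputable def step (c : V → Fin (r + 1)) (m : V × Fin (r + 1)) : V → Fin (r + 1) := Function.update c m.1 m.2

/-- the result of a list of moves -/
noncomputable def run (c : V → Fin (r + 1)) : List (V × Fin (r + 1)) → (V → Fin (r + 1))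
  | [] => c
  | m :: σ => run (step c m) σ

/-- all intermediate colourings are proper on `W`, all moves are in `W` -/
def Valid (W : Finset V) (c : V → Fin (r + 1)) : List (V × Fin (r + 1)) → Prop
  | [] => ProperOn G W c
  | m :: σ => ProperOn G W c ∧ m.1 ∈ W ∧ Valid W (step c m) σ

/-- number of moves of `v` -/
noncomputable def cnt (σ : List (V × Fin (r + 1))) (v : V) : ℕ := σ.countP (fun m => decide (m.1 = v))

/-- number of moves of neighbours of `w` -/
noncomputable def ev (σ : List (V × Fin (r + 1))) (w : V) : ℕ :=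
  σ.countP (fun m => decide (G.Adj w m.1))

lemma run_append (c : V → Fin (r + 1)) (σ σ' : List (V × Fin (r + 1))) :
    run c (σ ++ σ') = run (run c σ) σ' := by
  induction σ generalizing c with
  | nil => rfl
  | cons m σ ih => simp only [List.cons_append, run]; exact ih _

variable {G}

lemma Valid.proper {W : Finset V} {c : V → Fin (r + 1)} {σ : List (V × Fin (r + 1))} (h : Valid G W c σ) :
    ProperOn G W c := by
  cases σ with
  | nil => exact h
  | cons m σ => exact h.1

lemma Valid.proper_run {W : Finset V} {c : V → Fin (r + 1)} {σ : List (V × Fin (r + 1))}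
    (h : Valid G W c σ) : ProperOn G W (run c σ) := by
  induction σ generalizing c with
  | nil => exact h
  | cons m σ ih => exact ih h.2.2

lemma Valid.append {W : Finset V} {c : V → Fin (r + 1)} {σ σ' : List (V × Fin (r + 1))}
    (h : Valid G W c σ) (h' : Valid G W (run c σ) σ') : Valid G W c (σ ++ σ') := by
  induction σ generalizing c with
  | nil => exact h'
  | cons m σ ih => exact ⟨h.1, h.2.1, ih h.2.2 h'⟩

lemma Valid.congr {W : Finset V} {c c' : V → Fin (r + 1)} {σ : List (V × Fin (r + 1))}
    (h : Valid G W c σ) (hc : ∀ v ∈ W, c v = c' v) : Valid G W c' σ := by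
  induction σ generalizing c c' with
  | nil =>
    intro u hu v hv huv
    rw [← hc u hu, ← hc v hv]
    exact h u hu v hv huv
  | cons m σ ih =>
    refine ⟨?_, h.2.1, ih h.2.2 ?_⟩
    · intro u hu v hv huv
      rw [← hc u hu, ← hc v hv]
      exact h.1 u hu v hv huv
    · intro v hv
      unfold step
      by_cases hvm : v = m.1
      · subst hvm; simp
      · simp [hvm, hc v hv]

lemma run_congr {W : Finset V} {c c' : V → Fin (r + 1)} {σ : List (V × Fin (r + 1))}
    (hc : ∀ v ∈ W, c v = c' v) : ∀ v ∈ W, run c σ v = run c' σ v := by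
  induction σ generalizing c c' with
  | nil => exact hc
  | cons m σ ih =>
    apply ih
    intro v hv
    unfold step
    by_cases hvm : v = m.1
    · subst hvm; simp
    · simp [hvm, hc v hv]

lemma cnt_append (σ σ' : List (V × Fin (r + 1))) (v : V) : cnt (σ ++ σ') v = cnt σ v + cnt σ' v := by
  unfold cnt; rw [List.countP_append]

lemma cnt_cons (m : V × Fin (r + 1)) (σ : List (V × Fin (r + 1))) (v : V) :
    cnt (m :: σ) v = cnt σ v + if m.1 = v then 1 else 0 := by
  unfold cnt; rw [List.countP_cons]; simp

lemma ev_cons (m : V × Fin (r + 1)) (σ : List (V × Fin (r + 1))) (w : V) :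
    ev G (m :: σ) w = ev G σ w + if G.Adj w m.1 then 1 else 0 := by
  unfold ev; rw [List.countP_cons]; simp

/-- Moving an independent set of vertices to new colours. -/
lemma clear {W : Finset V} {c : V → Fin (r + 1)} (hc : ProperOn G W c) (x : V → Fin (r + 1))
    (B : Finset V) (hB : B ⊆ W) (hind : ∀ u ∈ B, ∀ v ∈ B, ¬ G.Adj u v)
    (hx : ∀ u ∈ B, ∀ v ∈ W, G.Adj u v → c v ≠ x u) :
    ∃ σ, Valid G W c σ ∧ run c σ = (fun v => if v ∈ B then x v else c v) ∧
      ∀ v, cnt σ v = if v ∈ B then 1 else 0 := by
  induction B using Finset.induction_on with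
  | empty => exact ⟨[], hc, by simp [run], by simp [cnt]⟩
  | insert w B hw ih =>
    obtain ⟨σ, h1, h2, h3⟩ := ih (fun v hv => hB (mem_insert_of_mem hv))
      (fun u hu v hv => hind u (mem_insert_of_mem hu) v (mem_insert_of_mem hv))
      (fun u hu => hx u (mem_insert_of_mem hu))
    have hwW : w ∈ W := hB (mem_insert_self _ _)
    have hfin : step (run c σ) (w, x w) = (fun v => if v ∈ insert w B then x v else c v) := by
      rw [h2]
      unfold step
      funext v
      by_cases hv : v = w
      · subst hv; simp
      · simp [hv]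
    refine ⟨σ ++ [(w, x w)], ?_, ?_, ?_⟩
    · refine h1.append ⟨h1.proper_run, hwW, ?_⟩
      show ProperOn G W (step (run c σ) (w, x w))
      rw [hfin]
      intro u hu v hv huv
      simp only
      by_cases huB : u ∈ insert w B
      · have hvB : v ∉ insert w B := fun h => hind u huB v h huv
        rw [if_pos huB, if_neg hvB]
        exact (hx u huB v hv huv).symm
      · by_cases hvB : v ∈ insert w B
        · rw [if_neg huB, if_pos hvB]
          exact hx v hvB u hu huv.symm
        · rw [if_neg huB, if_neg hvB]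
          exact hc u hu v hv huv
    · rw [run_append]
      exact hfin
    · intro v
      rw [cnt_append, h3, cnt_cons]
      by_cases hv : w = v
      · subst hv; simp [hw, cnt]
      · have hv' : v ≠ w := fun h => hv h.symm
        simp [hv, hv', cnt]

/-! ### Looking ahead -/

variable (G) in
/-- some neighbour of `w` will receive the colour `y` -/
def Occ (w : V) (y : Fin (r + 1)) (σ : List (V × Fin (r + 1))) : Prop := ∃ m ∈ σ, G.Adj w m.1 ∧ m.2 = y

variable (G) in
/-- number of moves of neighbours of `w` up to the first one with colour `y` -/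
noncomputable def pos (w : V) (y : Fin (r + 1)) : List (V × Fin (r + 1)) → ℕ
  | [] => 0
  | m :: σ => if G.Adj w m.1 then (if m.2 = y then 1 else 1 + pos w y σ) else pos w y σ

lemma occ_cons {w : V} {y : Fin (r + 1)} {m : V × Fin (r + 1)} {σ : List (V × Fin (r + 1))} :
    Occ G w y (m :: σ) ↔ (G.Adj w m.1 ∧ m.2 = y) ∨ Occ G w y σ := by
  unfold Occ
  simp

lemma pos_pos {w : V} {y : Fin (r + 1)} {σ : List (V × Fin (r + 1))} (h : Occ G w y σ) : 1 ≤ pos G w y σ := by
  induction σ with
  | nil => obtain ⟨m, hm, _⟩ := h; simp at hm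
  | cons m σ ih =>
    rw [occ_cons] at h
    unfold pos
    by_cases h1 : G.Adj w m.1
    · rw [if_pos h1]
      split_ifs <;> omega
    · rw [if_neg h1]
      exact ih (h.resolve_left (fun h' => h1 h'.1))

lemma pos_inj {w : V} {x y : Fin (r + 1)} {σ : List (V × Fin (r + 1))} (hx : Occ G w x σ) (hy : Occ G w y σ)
    (h : pos G w x σ = pos G w y σ) : x = y := by
  induction σ with
  | nil => obtain ⟨m, hm, _⟩ := hx; simp at hm
  | cons m σ ih =>
    rw [occ_cons] at hx hy
    unfold pos at h
    by_cases h1 : G.Adj w m.1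
    · rw [if_pos h1, if_pos h1] at h
      by_cases hmx : m.2 = x
      · by_cases hmy : m.2 = y
        · rw [← hmx, ← hmy]
        · rw [if_pos hmx, if_neg hmy] at h
          have := pos_pos (hy.resolve_left (fun h' => hmy h'.2))
          omega
      · by_cases hmy : m.2 = y
        · rw [if_neg hmx, if_pos hmy] at h
          have := pos_pos (hx.resolve_left (fun h' => hmx h'.2))
          omega
        · rw [if_neg hmx, if_neg hmy] at h
          exact ih (hx.resolve_left (fun h' => hmx h'.2)) (hy.resolve_left (fun h' => hmy h'.2))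
            (by omega)
    · rw [if_neg h1, if_neg h1] at h
      exact ih (hx.resolve_left (fun h' => h1 h'.1)) (hy.resolve_left (fun h' => h1 h'.1)) h

/-- Among `k` colours there is one which never occurs or occurs late. -/
lemma exists_far (w : V) (σ : List (V × Fin (r + 1))) (A : Finset (Fin (r + 1))) (k : ℕ) (hk : 1 ≤ k)
    (hA : k ≤ A.card) : ∃ x ∈ A, Occ G w x σ → k ≤ pos G w x σ := by
  by_contra hcon
  push Not at hcon
  have h1 : (A.image (fun x => pos G w x σ)).card = A.card := by
    apply card_image_of_injOn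
    intro x hx y hy hxy
    exact pos_inj (hcon x hx).1 (hcon y hy).1 hxy
  have h2 : A.image (fun x => pos G w x σ) ⊆ Finset.Ico 1 k := by
    intro i hi
    rw [mem_image] at hi
    obtain ⟨x, hx, rfl⟩ := hi
    rw [Finset.mem_Ico]
    exact ⟨pos_pos (hcon x hx).1, (hcon x hx).2⟩
  have h3 := card_le_card h2
  rw [h1, Nat.card_Ico] at h3
  omega

/-- Available colours. -/
lemma avail {W : Finset V} {c : V → Fin (r + 1)} {w : V} {b : Fin (r + 1)} {k : ℕ}
    (hk : (nb G W w).card + k ≤ r) :
    k ≤ (univ.filter (fun y : Fin (r + 1) => y ≠ b ∧ ∀ v ∈ nb G W w, c v ≠ y)).card := by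
  have h1 : univ \ (insert b ((nb G W w).image c)) ⊆
      univ.filter (fun y : Fin (r + 1) => y ≠ b ∧ ∀ v ∈ nb G W w, c v ≠ y) := by
    intro y hy
    rw [mem_sdiff, mem_insert, mem_image] at hy
    rw [mem_filter]
    refine ⟨mem_univ _, fun h => hy.2 (Or.inl h), fun v hv h => hy.2 (Or.inr ⟨v, hv, h⟩)⟩
  have h2 := card_le_card h1
  have h3 : (insert b ((nb G W w).image c)).card ≤ (nb G W w).card + 1 :=
    (card_insert_le _ _).trans (Nat.add_le_add_right card_image_le 1)
  have h4 := card_sdiff_add_card (s := (univ : Finset (Fin (r + 1))))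
    (t := insert b ((nb G W w).image c))
  rw [union_eq_left.2 (subset_univ _), card_univ, Fintype.card_fin] at h4
  omega

/-- The forced moves: the vertices of `L` give way to the moves of `σ'`. -/
lemma follow {W' L : Finset V} (hWL : Disjoint W' L) (k : V → ℕ)
    (hk : ∀ w ∈ L, 1 ≤ k w ∧ (nb G (W' ∪ L) w).card + k w ≤ r)
    (σ' : List (V × Fin (r + 1))) : ∀ c : V → Fin (r + 1), ProperOn G (W' ∪ L) c → Valid G W' c σ' →
    ∃ σ, Valid G (W' ∪ L) c σ ∧ (∀ v ∈ W', run c σ v = run c σ' v) ∧
      (∀ v ∈ W', cnt σ v = cnt σ' v) ∧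
      (∀ w ∈ L, (Occ G w (c w) σ' → k w * cnt σ w + pos G w (c w) σ' ≤ ev G σ' w + k w) ∧
        (¬ Occ G w (c w) σ' → cnt σ w = 0)) := by
  induction σ' with
  | nil =>
    intro c hc _
    refine ⟨[], hc, fun _ _ => rfl, fun _ _ => rfl, fun w _ => ⟨fun h => ?_, fun _ => by simp [cnt]⟩⟩
    obtain ⟨m, hm, _⟩ := h
    simp at hm
  | cons m σ' ih =>
    intro c hc hv
    obtain ⟨u, b⟩ := m
    obtain ⟨_, huW, hv'⟩ := hv
    simp only at huW
    -- the vertices that have to move
    set B := L.filter (fun w => G.Adj u w ∧ c w = b) with hB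
    have hBL : B ⊆ L := filter_subset _ _
    have hBW : B ⊆ W' ∪ L := hBL.trans subset_union_right
    have hch : ∀ w ∈ L, ∃ y : Fin (r + 1), (y ≠ b ∧ ∀ v ∈ nb G (W' ∪ L) w, c v ≠ y) ∧
        (Occ G w y σ' → k w ≤ pos G w y σ') := by
      intro w hw
      obtain ⟨y, hy, hy'⟩ := exists_far (G := G) w σ' _ (k w) (hk w hw).1
        (avail (c := c) (b := b) (hk w hw).2)
      rw [mem_filter] at hy
      exact ⟨y, hy.2, hy'⟩
    have hch' : ∀ w, ∃ y : Fin (r + 1), w ∈ L → (y ≠ b ∧ ∀ v ∈ nb G (W' ∪ L) w, c v ≠ y) ∧
        (Occ G w y σ' → k w ≤ pos G w y σ') := by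
      intro w
      by_cases hw : w ∈ L
      · obtain ⟨y, hy⟩ := hch w hw
        exact ⟨y, fun _ => hy⟩
      · exact ⟨0, fun h => absurd h hw⟩
    choose x hx using hch'
    obtain ⟨σ1, hσ1, hrun1, hcnt1⟩ := clear hc x B hBW
      (by
        intro p hp q hq hpq
        rw [hB, mem_filter] at hp hq
        exact hc p (mem_union_right _ hp.1) q (mem_union_right _ hq.1) hpq
          (hp.2.2.trans hq.2.2.symm))
      (by
        intro p hp v hv hpv
        exact (hx p (hBL hp)).1.2 v ((mem_nb G).2 ⟨hv, hpv⟩))
    set c1 : V → Fin (r + 1) := fun v => if v ∈ B then x v else c v with hc1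
    -- the colouring after the move of `u`
    set c2 := step c1 (u, b) with hc2
    have huB : u ∉ B := fun h => (Finset.disjoint_left.1 hWL) huW (hBL h)
    have hc1W : ∀ v ∈ W', c1 v = c v := by
      intro v hv
      rw [hc1]
      simp only
      rw [if_neg (fun h => (Finset.disjoint_left.1 hWL) hv (hBL h))]
    have hp1 : ProperOn G (W' ∪ L) c1 := by
      have := hσ1.proper_run
      rwa [hrun1] at this
    have hstepW : ∀ v ∈ W', c2 v = step c (u, b) v := by
      intro v hv
      rw [hc2]
      unfold step
      by_cases hvu : v = u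
      · subst hvu; simp
      · simp [hvu, hc1W v hv]
    have hval2 : Valid G W' c2 σ' := hv'.congr (fun v hv => (hstepW v hv).symm)
    have hp2 : ProperOn G (W' ∪ L) c2 := by
      have key : ∀ v ∈ W' ∪ L, G.Adj u v → c2 v ≠ b := by
        intro v hv huv
        have hvu : v ≠ u := fun h => by subst h; exact G.loopless.irrefl _ huv
        rw [mem_union] at hv
        rcases hv with hv | hv
        · intro h
          have h1 := hval2.proper u huW v hv huv
          apply h1
          rw [h, hc2]
          simp [step]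
        · have : c2 v = c1 v := by rw [hc2]; simp [step, hvu]
          rw [this, hc1]
          simp only
          by_cases hvB : v ∈ B
          · rw [if_pos hvB]
            exact (hx v hv).1.1
          · rw [if_neg hvB]
            intro h
            exact hvB (by rw [hB, mem_filter]; exact ⟨hv, huv, h⟩)
      intro p hp q hq hpq
      by_cases hpu : p = u
      · subst hpu
        have : c2 p = b := by rw [hc2]; simp [step]
        rw [this]
        exact (key q hq hpq).symm
      · by_cases hqu : q = u
        · subst hqu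
          have : c2 q = b := by rw [hc2]; simp [step]
          rw [this]
          exact key p hp hpq.symm
        · have h1 : c2 p = c1 p := by rw [hc2]; simp [step, hpu]
          have h2 : c2 q = c1 q := by rw [hc2]; simp [step, hqu]
          rw [h1, h2]
          exact hp1 p hp q hq hpq
    obtain ⟨σ2, hσ2, hrun2, hcnt2, hbd2⟩ := ih c2 hp2 hval2
    refine ⟨σ1 ++ (u, b) :: σ2, ?_, ?_, ?_, ?_⟩
    · refine hσ1.append ?_
      rw [hrun1]
      exact ⟨hp1, mem_union_left _ huW, hσ2⟩
    · intro v hv
      rw [run_append, hrun1]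
      show run (step c1 (u, b)) σ2 v = run (step c (u, b)) σ' v
      rw [← hc2, hrun2 v hv]
      exact run_congr hstepW v hv
    · intro v hv
      have hvB : v ∉ B := fun h => (Finset.disjoint_left.1 hWL) hv (hBL h)
      rw [cnt_append, hcnt1, if_neg hvB, cnt_cons, cnt_cons, hcnt2 v hv, zero_add]
    · intro w hw
      have hwu : w ≠ u := fun h => by subst h; exact (Finset.disjoint_left.1 hWL) huW hw
      have hc2w : c2 w = c1 w := by rw [hc2]; simp [step, hwu]
      have hcnt : cnt (σ1 ++ (u, b) :: σ2) w = (if w ∈ B then 1 else 0) + cnt σ2 w := by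
        rw [cnt_append, hcnt1, cnt_cons]
        simp [hwu.symm]
      rw [hcnt, ev_cons, occ_cons]
      obtain ⟨hbd, hbd'⟩ := hbd2 w hw
      rw [hc2w] at hbd hbd'
      by_cases hwB : w ∈ B
      · -- forced
        have hwB' := hwB
        rw [hB, mem_filter] at hwB'
        obtain ⟨_, huw, hcw⟩ := hwB'
        have hc1w : c1 w = x w := by rw [hc1]; simp only; rw [if_pos hwB]
        rw [hc1w] at hbd hbd'
        rw [if_pos hwB]
        refine ⟨fun _ => ?_, fun h => absurd (Or.inl ⟨huw.symm, hcw.symm⟩) h⟩
        have hpos : pos G w (c w) ((u, b) :: σ') = 1 := by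
          unfold pos
          simp [huw.symm, hcw]
        rw [hpos, if_pos huw.symm]
        by_cases hocc : Occ G w (x w) σ'
        · have h1 := hbd hocc
          have h2 := (hx w hw).2 hocc
          rw [mul_add, mul_one]
          omega
        · rw [hbd' hocc, add_zero, mul_one]
          omega
      · -- not forced
        have hc1w : c1 w = c w := by rw [hc1]; simp only; rw [if_neg hwB]
        rw [hc1w] at hbd hbd'
        rw [if_neg hwB, zero_add]
        by_cases hadj : G.Adj w u
        · have hne : c w ≠ b := fun h => hwB (by rw [hB, mem_filter]; exact ⟨hw, hadj.symm, h⟩)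
          have hpos : pos G w (c w) ((u, b) :: σ') = 1 + pos G w (c w) σ' := by
            rw [pos]
            simp [hadj, hne.symm]
          rw [hpos, if_pos hadj]
          refine ⟨fun h => ?_, fun h => ?_⟩
          · have h' := hbd (h.resolve_left (fun h' => hne h'.2.symm))
            omega
          · exact hbd' (fun h' => h (Or.inr h'))
        · have hpos : pos G w (c w) ((u, b) :: σ') = pos G w (c w) σ' := by
            rw [pos]
            simp [hadj]
          rw [hpos, if_neg hadj, add_zero]
          refine ⟨fun h => ?_, fun h => ?_⟩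
          · exact hbd (h.resolve_left (fun h' => hadj h'.1))
          · exact hbd' (fun h' => h (Or.inr h'))

lemma nb_mono {U U' : Finset V} (h : U ⊆ U') (w : V) : nb G U w ⊆ nb G U' w :=
  filter_subset_filter _ h

/-- Bringing the vertices of `R` to their final colours. -/
lemma finalise {W : Finset V} {β : V → Fin (r + 1)} (hβ : ProperOn G W β) (R : Finset V) :
    R ⊆ W → (∀ w ∈ R, (nb G W w).card + 1 ≤ r) → ∀ c : V → Fin (r + 1), ProperOn G W c →
    (∀ v ∈ W, v ∉ R → c v = β v) →
    ∃ σ, Valid G W c σ ∧ (∀ v ∈ W, run c σ v = β v) ∧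
      ∀ v, cnt σ v ≤ if v ∈ R then (nb G R v).card + 1 else 0 := by
  induction R using Finset.induction_on with
  | empty =>
    intro _ _ c hc h
    exact ⟨[], hc, fun v hv => h v hv (notMem_empty v), by simp [cnt]⟩
  | insert v R hvR ih =>
    intro hRW hdeg c hc h
    have hvW : v ∈ W := hRW (mem_insert_self _ _)
    set B := R.filter (fun w => G.Adj v w ∧ c w = β v) with hB
    have hBR : B ⊆ R := filter_subset _ _
    have hch' : ∀ w, ∃ y : Fin (r + 1), w ∈ R → (y ≠ β v ∧ ∀ u ∈ nb G W w, c u ≠ y) := by
      intro w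
      by_cases hw : w ∈ R
      · have h1 := avail (c := c) (b := β v) (hdeg w (mem_insert_of_mem hw))
        obtain ⟨y, hy⟩ := card_pos.1 (lt_of_lt_of_le Nat.one_pos h1)
        rw [mem_filter] at hy
        exact ⟨y, fun _ => hy.2⟩
      · exact ⟨0, fun h => absurd h hw⟩
    choose x hx using hch'
    obtain ⟨σ1, hσ1, hrun1, hcnt1⟩ := clear hc x B
      (fun w hw => hRW (mem_insert_of_mem (hBR hw)))
      (by
        intro p hp q hq hpq
        rw [hB, mem_filter] at hp hq
        exact hc p (hRW (mem_insert_of_mem hp.1)) q (hRW (mem_insert_of_mem hq.1)) hpq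
          (hp.2.2.trans hq.2.2.symm))
      (by
        intro p hp q hq hpq
        exact (hx p (hBR hp)).2 q ((mem_nb G).2 ⟨hq, hpq⟩))
    set c1 : V → Fin (r + 1) := fun v => if v ∈ B then x v else c v with hc1
    set c2 := step c1 (v, β v) with hc2
    have hvB : v ∉ B := fun h => hvR (hBR h)
    have hp1 : ProperOn G W c1 := by
      have := hσ1.proper_run
      rwa [hrun1] at this
    have hp2 : ProperOn G W c2 := by
      have key : ∀ u ∈ W, G.Adj v u → c2 u ≠ β v := by
        intro u hu hvu
        have huv : u ≠ v := fun h => by subst h; exact G.loopless.irrefl _ hvu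
        have : c2 u = c1 u := by rw [hc2]; simp [step, huv]
        rw [this, hc1]
        simp only
        by_cases huB : u ∈ B
        · rw [if_pos huB]
          exact (hx u (hBR huB)).1
        · rw [if_neg huB]
          by_cases huR : u ∈ R
          · intro h'
            exact huB (by rw [hB, mem_filter]; exact ⟨huR, hvu, h'⟩)
          · rw [h u hu (by rw [mem_insert]; push Not; exact ⟨huv, huR⟩)]
            exact (hβ v hvW u hu hvu).symm
      intro p hp q hq hpq
      by_cases hpv : p = v
      · subst hpv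
        have : c2 p = β p := by rw [hc2]; simp [step]
        rw [this]
        exact (key q hq hpq).symm
      · by_cases hqv : q = v
        · subst hqv
          have : c2 q = β q := by rw [hc2]; simp [step]
          rw [this]
          exact key p hp hpq.symm
        · have h1 : c2 p = c1 p := by rw [hc2]; simp [step, hpv]
          have h2 : c2 q = c1 q := by rw [hc2]; simp [step, hqv]
          rw [h1, h2]
          exact hp1 p hp q hq hpq
    have hfin2 : ∀ u ∈ W, u ∉ R → c2 u = β u := by
      intro u hu huR
      by_cases huv : u = v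
      · subst huv; rw [hc2]; simp [step]
      · have h1 : c2 u = c1 u := by rw [hc2]; simp [step, huv]
        rw [h1, hc1]
        simp only
        rw [if_neg (fun h' => huR (hBR h'))]
        exact h u hu (by rw [mem_insert]; push Not; exact ⟨huv, huR⟩)
    obtain ⟨σ2, hσ2, hrun2, hcnt2⟩ := ih (fun w hw => hRW (mem_insert_of_mem hw))
      (fun w hw => hdeg w (mem_insert_of_mem hw)) c2 hp2 hfin2
    refine ⟨σ1 ++ (v, β v) :: σ2, ?_, ?_, ?_⟩
    · refine hσ1.append ?_
      rw [hrun1]
      exact ⟨hp1, hvW, hσ2⟩
    · intro u hu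
      rw [run_append, hrun1]
      exact hrun2 u hu
    · intro w
      rw [cnt_append, hcnt1, cnt_cons]
      have h2 := hcnt2 w
      by_cases hwv : v = w
      · subst hwv
        rw [if_neg hvR] at h2
        rw [if_neg hvB, if_pos rfl, if_pos (mem_insert_self _ _)]
        omega
      · by_cases hwR : w ∈ R
        · rw [if_pos hwR] at h2
          rw [if_neg hwv, if_pos (mem_insert_of_mem hwR)]
          by_cases hwB : w ∈ B
          · rw [if_pos hwB]
            have hwB' := hwB
            rw [hB, mem_filter] at hwB'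
            have h3 : (nb G R w).card < (nb G (insert v R) w).card := by
              apply card_lt_card
              refine ⟨nb_mono (subset_insert _ _) w, fun h' => ?_⟩
              have h4 : v ∈ nb G (insert v R) w :=
                (mem_nb G).2 ⟨mem_insert_self _ _, hwB'.2.1.symm⟩
              exact hvR ((mem_nb G).1 (h' h4)).1
            omega
          · rw [if_neg hwB]
            have h3 := card_le_card (nb_mono (G := G) (subset_insert v R) w)
            omega
        · rw [if_neg hwR] at h2
          rw [if_neg hwv, if_neg (fun h' => hwR (hBR h')),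
            if_neg (by rw [mem_insert]; push Not; exact ⟨fun h' => hwv h'.symm, hwR⟩)]
          omega

lemma Valid.cnt_eq_zero {W : Finset V} {c : V → Fin (r + 1)} {σ : List (V × Fin (r + 1))}
    (h : Valid G W c σ) {v : V} (hv : v ∉ W) : cnt σ v = 0 := by
  induction σ generalizing c with
  | nil => simp [cnt]
  | cons m σ ih =>
    rw [cnt_cons, ih h.2.2, if_neg]
    rintro rfl
    exact hv h.2.1

lemma Valid.ev_eq {W : Finset V} {c : V → Fin (r + 1)} {σ : List (V × Fin (r + 1))}
    (h : Valid G W c σ) (w : V) : ev G σ w = ∑ u ∈ nb G W w, cnt σ u := by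
  induction σ generalizing c with
  | nil => simp [cnt, ev]
  | cons m σ ih =>
    rw [ev_cons, ih h.2.2]
    simp_rw [cnt_cons]
    rw [sum_add_distrib, sum_ite_eq]
    congr 1
    have : m.1 ∈ nb G W w ↔ G.Adj w m.1 := by
      rw [mem_nb]
      exact ⟨fun h' => h'.2, fun h' => ⟨h.2.1, h'⟩⟩
    simp only [this]

end seq

/-! ### The whole sequence -/

section main

variable [Fintype V] {G : SimpleGraph V}

/-- `r` minus the number of neighbours that are at least as high as `w` -/
noncomputable def kk (r : ℕ) (G : SimpleGraph V) (τ : V → ℕ) (w : V) : ℕ :=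
  r - ((nb G univ w).filter (fun u => τ w ≤ τ u)).card

lemma kk_spec {τ : V → ℕ}
    (hτ : ∀ w, 1 + ∑ u ∈ nb G univ w, min (τ u) (τ w) ≤ r * τ w) (w : V) :
    ((nb G univ w).filter (fun u => τ w ≤ τ u)).card + kk r G τ w = r ∧ 1 ≤ kk r G τ w ∧
      1 + ∑ u ∈ (nb G univ w).filter (fun u => τ u < τ w), τ u ≤ kk r G τ w * τ w := by
  have h1 : ∑ u ∈ nb G univ w, min (τ u) (τ w) =
      ((nb G univ w).filter (fun u => τ w ≤ τ u)).card * τ w +
        ∑ u ∈ (nb G univ w).filter (fun u => τ u < τ w), τ u := by
    rw [← sum_filter_add_sum_filter_not (nb G univ w) (fun u => τ w ≤ τ u)]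
    congr 1
    · rw [sum_congr rfl (fun u hu => min_eq_right (mem_filter.1 hu).2), sum_const, smul_eq_mul]
    · have : (nb G univ w).filter (fun u => ¬ τ w ≤ τ u) =
          (nb G univ w).filter (fun u => τ u < τ w) := by
        apply filter_congr
        intro u _
        exact not_le
      rw [this]
      exact sum_congr rfl (fun u hu => min_eq_left (mem_filter.1 hu).2.le)
  have h2 := hτ w
  rw [h1] at h2
  set a := ((nb G univ w).filter (fun u => τ w ≤ τ u)).card with ha
  set S := ∑ u ∈ (nb G univ w).filter (fun u => τ u < τ w), τ u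
  have h3 : a < r := by
    by_contra hcon
    push Not at hcon
    have : r * τ w ≤ a * τ w := Nat.mul_le_mul_right _ hcon
    omega
  have h4 : a + kk r G τ w = r := by
    unfold kk
    rw [← ha]
    omega
  refine ⟨h4, by omega, ?_⟩
  have h5 : r * τ w = a * τ w + kk r G τ w * τ w := by rw [← add_mul, h4]
  omega

theorem exists_sequence {τ : V → ℕ}
    (hτ : ∀ w, 1 + ∑ u ∈ nb G univ w, min (τ u) (τ w) ≤ r * τ w) {α β : V → Fin (r + 1)}
    (hα : ProperOn G univ α) (hβ : ProperOn G univ β) :
    ∃ σ, Valid G univ α σ ∧ run α σ = β ∧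
      ∀ w, kk r G τ w * cnt σ w ≤
        ∑ u ∈ (nb G univ w).filter (fun u => τ w < τ u), cnt σ u + (r + 1) * kk r G τ w := by
  have hpα : ∀ W : Finset V, ProperOn G W α := fun W u _ v _ => hα u (mem_univ _) v (mem_univ _)
  have hpβ : ∀ W : Finset V, ProperOn G W β := fun W u _ v _ => hβ u (mem_univ _) v (mem_univ _)
  set M := ∑ w, τ w with hM
  have hτM : ∀ w, τ w ≤ M := fun w => single_le_sum (fun _ _ => Nat.zero_le _) (mem_univ w)
  have key : ∀ j s : ℕ, s + j = M + 1 → ∃ σ, Valid G (univ.filter (fun v => s ≤ τ v)) α σ ∧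
      (∀ v, s ≤ τ v → run α σ v = β v) ∧
      ∀ w, s ≤ τ w → kk r G τ w * cnt σ w ≤
        ∑ u ∈ (nb G univ w).filter (fun u => τ w < τ u), cnt σ u + (r + 1) * kk r G τ w := by
    intro j
    induction j with
    | zero =>
      intro s hs
      refine ⟨[], hpα _, fun v hv => ?_, fun w hw => ?_⟩
      · have := hτM v; omega
      · have := hτM w; omega
    | succ j ih =>
      intro s hs
      obtain ⟨σ', hval', hrun', hbd'⟩ := ih (s + 1) (by omega)
      set W' := univ.filter (fun v => s + 1 ≤ τ v) with hW'
      set L := univ.filter (fun v => τ v = s) with hL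
      have hWL : Disjoint W' L := by
        rw [Finset.disjoint_left]
        intro v hv hv'
        rw [hW', mem_filter] at hv
        rw [hL, mem_filter] at hv'
        omega
      have hW : W' ∪ L = univ.filter (fun v => s ≤ τ v) := by
        ext v
        simp only [hW', hL, mem_union, mem_filter, mem_univ, true_and]
        omega
      have hnb : ∀ w ∈ L, nb G (W' ∪ L) w = (nb G univ w).filter (fun u => τ w ≤ τ u) := by
        intro w hw
        rw [hL, mem_filter] at hw
        ext u
        rw [hW, mem_nb, mem_filter, mem_filter, mem_nb, hw.2]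
        tauto
      have hnb' : ∀ w ∈ L, nb G W' w = (nb G univ w).filter (fun u => τ w < τ u) := by
        intro w hw
        rw [hL, mem_filter] at hw
        ext u
        rw [mem_nb, hW', mem_filter, mem_filter, mem_nb, hw.2]
        simp only [mem_univ, true_and, Nat.succ_le_iff]
        tauto
      have hk : ∀ w ∈ L, 1 ≤ kk r G τ w ∧ (nb G (W' ∪ L) w).card + kk r G τ w ≤ r := by
        intro w hw
        obtain ⟨h1, h2, _⟩ := kk_spec hτ w
        rw [hnb w hw]
        exact ⟨h2, h1.le⟩
      obtain ⟨σ1, hval1, hrun1, hcnt1, hbd1⟩ := follow hWL (kk r G τ) hk σ' α (hpα _) hval'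
      have hc : ∀ v ∈ W' ∪ L, v ∉ L → run α σ1 v = β v := by
        intro v hv hvL
        have hv' : v ∈ W' := (mem_union.1 hv).resolve_right hvL
        rw [hrun1 v hv']
        apply hrun'
        rw [hW', mem_filter] at hv'
        exact hv'.2
      obtain ⟨σ2, hval2, hrun2, hcnt2⟩ := finalise (hpβ (W' ∪ L)) L subset_union_right
        (fun w hw => by have := hk w hw; omega) (run α σ1) hval1.proper_run hc
      have hval := hval1.append hval2
      refine ⟨σ1 ++ σ2, ?_, ?_, ?_⟩
      · rw [← hW]; exact hval
      · intro v hv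
        rw [run_append]
        apply hrun2
        rw [hW, mem_filter]
        exact ⟨mem_univ _, hv⟩
      · intro w hw
        have hcW' : ∀ v ∈ W', cnt (σ1 ++ σ2) v = cnt σ' v := by
          intro v hv
          have h1 := hcnt2 v
          rw [if_neg (Finset.disjoint_left.1 hWL hv)] at h1
          rw [cnt_append, hcnt1 v hv]
          omega
        by_cases hws : s + 1 ≤ τ w
        · have hwW' : w ∈ W' := by rw [hW', mem_filter]; exact ⟨mem_univ _, hws⟩
          have hsum : ∑ u ∈ (nb G univ w).filter (fun u => τ w < τ u), cnt (σ1 ++ σ2) u =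
              ∑ u ∈ (nb G univ w).filter (fun u => τ w < τ u), cnt σ' u := by
            apply sum_congr rfl
            intro u hu
            apply hcW'
            rw [mem_filter] at hu
            rw [hW', mem_filter]
            exact ⟨mem_univ _, by omega⟩
          rw [hsum, hcW' w hwW']
          exact hbd' w hws
        · have hwL : w ∈ L := by rw [hL, mem_filter]; exact ⟨mem_univ _, by omega⟩
          have hsum : ∑ u ∈ (nb G univ w).filter (fun u => τ w < τ u), cnt (σ1 ++ σ2) u =
              ev G σ' w := by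
            rw [hval'.ev_eq w, hnb' w hwL]
            apply sum_congr rfl
            intro u hu
            apply hcW'
            rw [← hnb' w hwL, mem_nb] at hu
            exact hu.1
          rw [hsum, cnt_append]
          have h2 := hcnt2 w
          rw [if_pos hwL] at h2
          have h3 : (nb G L w).card ≤ (nb G (W' ∪ L) w).card :=
            card_le_card (nb_mono subset_union_right w)
          obtain ⟨hk1, hk2⟩ := hk w hwL
          have h4 : kk r G τ w * cnt σ1 w ≤ ev G σ' w + kk r G τ w := by
            by_cases hocc : Occ G w (α w) σ'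
            · have := (hbd1 w hwL).1 hocc
              omega
            · rw [(hbd1 w hwL).2 hocc]
              omega
          have h5 : kk r G τ w * cnt σ2 w ≤ kk r G τ w * r := Nat.mul_le_mul_left _ (by omega)
          have h6 : (r + 1) * kk r G τ w = kk r G τ w * r + kk r G τ w := by ring
          rw [mul_add]
          omega
  obtain ⟨σ, h1, h2, h3⟩ := key (M + 1) 0 (by omega)
  refine ⟨σ, ?_, ?_, fun w => h3 w (Nat.zero_le _)⟩
  · have : univ.filter (fun v => 0 ≤ τ v) = (univ : Finset V) := by simp
    rwa [this] at h1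
  · funext v
    exact h2 v (Nat.zero_le _)

lemma length_eq (σ : List (V × Fin (r + 1))) : σ.length = ∑ v, cnt σ v := by
  induction σ with
  | nil => simp [cnt]
  | cons m σ ih =>
    simp_rw [cnt_cons]
    rw [sum_add_distrib, ← ih]
    simp

/-- **Linear recolouring** with `r + 1` colours for all graphs in which every induced subgraph
has average degree at most `r - 1`. -/
theorem linear {D : ℕ} (hD : D + 1 ≤ r)
    (hS : ∀ U : Finset V, ∑ w ∈ U, (nb G U w).card ≤ D * U.card) {α β : V → Fin (r + 1)}
    (hα : ProperOn G univ α) (hβ : ProperOn G univ β) :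
    ∃ σ, Valid G univ α σ ∧ run α σ = β ∧ σ.length ≤ (r + 1) * (r * (r * Fintype.card V)) := by
  obtain ⟨τ, hτ, hsum⟩ := exists_weight G hD hS
  obtain ⟨σ, h1, h2, h3⟩ := exists_sequence hτ hα hβ
  refine ⟨σ, h1, h2, ?_⟩
  rw [length_eq]
  have hA : ∑ w, τ w * (kk r G τ w * cnt σ w) ≤
      ∑ w, τ w * (∑ u ∈ (nb G univ w).filter (fun u => τ w < τ u), cnt σ u + (r + 1) * kk r G τ w) :=
    sum_le_sum (fun w _ => Nat.mul_le_mul_left _ (h3 w))
  have hB : ∑ w, τ w * (∑ u ∈ (nb G univ w).filter (fun u => τ w < τ u), cnt σ u + (r + 1) * kk r G τ w) =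
      ∑ u, cnt σ u * ∑ w ∈ (nb G univ u).filter (fun w => τ w < τ u), τ w +
        (r + 1) * ∑ w, τ w * kk r G τ w := by
    simp_rw [mul_add (τ _)]
    rw [sum_add_distrib, mul_sum]
    congr 1
    · simp_rw [mul_sum, sum_filter, nb, sum_filter]
      rw [sum_comm]
      apply sum_congr rfl
      intro u _
      apply sum_congr rfl
      intro w _
      simp only [G.adj_comm w u]
      split_ifs <;> ring
    · apply sum_congr rfl
      intro w _
      ring
  have hC : ∑ u, cnt σ u * (1 + ∑ w ∈ (nb G univ u).filter (fun w => τ w < τ u), τ w) ≤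
      ∑ u, τ u * (kk r G τ u * cnt σ u) := by
    apply sum_le_sum
    intro u _
    have := (kk_spec hτ u).2.2
    calc cnt σ u * (1 + ∑ w ∈ (nb G univ u).filter (fun w => τ w < τ u), τ w)
        ≤ cnt σ u * (kk r G τ u * τ u) := Nat.mul_le_mul_left _ this
      _ = _ := by ring
  have hD : ∑ w, τ w * kk r G τ w ≤ r * ∑ w, τ w := by
    rw [mul_sum]
    apply sum_le_sum
    intro w _
    have : kk r G τ w ≤ r := by unfold kk; omega
    calc τ w * kk r G τ w ≤ τ w * r := Nat.mul_le_mul_left _ this
      _ = _ := by ring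
  have hE : (r + 1) * ∑ w, τ w * kk r G τ w ≤ (r + 1) * (r * (r * Fintype.card V)) :=
    Nat.mul_le_mul_left _ (hD.trans (Nat.mul_le_mul_left _ hsum))
  simp_rw [mul_add, mul_one] at hC
  rw [sum_add_distrib] at hC
  rw [hB] at hA
  omega

end main

end Pool.Agent.helper22.Rec
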