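import Mathlib
import Pool.Agent.helper22.Recolour
import Pool.Agent.Lib.K5Model
import Pool.Agent.Lib.K5Sparse
import Pool.Agent.Lib.VanKampenFlores

set_option autoImplicit false

/-!
# Recolouring planar graphs

A graph drawn in the plane has no `K₅` model (van Kampen-Flores), hence every set `U` of its
vertices spans at most `3|U|` edges, and the general recolouring theorem of
`Pool.Agent.helper22.Recolour` applies.  The argument for `not_hasK5Model` is the one of helper3's
`Pool.Agent.Lib.PlanarNoK5`, for a weaker drawing hypothesis.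
-/

namespace Pool.Agent.helper22.PlanarRec

open Finset Classical

/-- A drawing in the plane in which arcs of disjoint edges do not meet outside their ends, and no
arc passes through a vertex. -/
def Drawn {V : Type} (G : SimpleGraph V) : Prop :=
  ∃ f : V → ℂ, Function.Injective f ∧
    ∃ γ : V → V → unitInterval → ℂ,
      (∀ u v : V, G.Adj u v → Continuous (γ u v) ∧ γ u v 0 = f u ∧ γ u v 1 = f v) ∧
      (∀ (u v w : V) (t : unitInterval), G.Adj u v → t ≠ 0 → t ≠ 1 → γ u v t ≠ f w) ∧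
      (∀ (u v x y : V) (a b : unitInterval), G.Adj u v → G.Adj x y →
        u ≠ x → u ≠ y → v ≠ x → v ≠ y →
        a ≠ 0 → a ≠ 1 → b ≠ 0 → b ≠ 1 → γ u v a ≠ γ x y b)

lemma Drawn.induce {V : Type} {G : SimpleGraph V} (h : Drawn G) (U : Set V) :
    Drawn (G.induce U) := by
  obtain ⟨f, hf, γ, h1, h2, h3⟩ := h
  refine ⟨fun u => f u.1, fun u v huv => Subtype.ext (hf huv), fun u v => γ u.1 v.1, ?_, ?_, ?_⟩
  · intro u v huv
    exact h1 u.1 v.1 huv
  · intro u v w t huv
    exact h2 u.1 v.1 w.1 t huv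
  · intro u v x y a b huv hxy hux huy hvx hvy
    exact h3 u.1 v.1 x.1 y.1 a b huv hxy (fun h => hux (Subtype.ext h)) (fun h => huy (Subtype.ext h))
      (fun h => hvx (Subtype.ext h)) (fun h => hvy (Subtype.ext h))

/-- the part of the drawing spanned by a vertex set -/
def carrier {V : Type} (G : SimpleGraph V) (f : V → ℂ) (γ : V → V → unitInterval → ℂ)
    (S : Set V) : Set ℂ :=
  {z | (∃ w ∈ S, z = f w) ∨ ∃ u ∈ S, ∃ v ∈ S, G.Adj u v ∧ ∃ a, z = γ u v a}

section

variable {V : Type} {G : SimpleGraph V} {f : V → ℂ} {γ : V → V → unitInterval → ℂ}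

theorem carrier_vertex {S : Set V} {w : V} (hw : w ∈ S) : f w ∈ carrier G f γ S :=
  Or.inl ⟨w, hw, rfl⟩

theorem joined_adj (h1 : ∀ u v : V, G.Adj u v →
        Continuous (γ u v) ∧ γ u v 0 = f u ∧ γ u v 1 = f v)
    {S : Set V} {u v : V} (hu : u ∈ S) (hv : v ∈ S) (h : G.Adj u v) :
    JoinedIn (carrier G f γ S) (f u) (f v) := by
  obtain ⟨hc, h0, h1'⟩ := h1 u v h
  exact ⟨⟨⟨γ u v, hc⟩, h0, h1'⟩, fun t => Or.inr ⟨u, hu, v, hv, h, t, rfl⟩⟩

theorem joined_walk (h1 : ∀ u v : V, G.Adj u v →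
        Continuous (γ u v) ∧ γ u v 0 = f u ∧ γ u v 1 = f v)
    {B S : Set V} (hBS : B ⊆ S) {u v : B} (p : (G.induce B).Walk u v) :
    JoinedIn (carrier G f γ S) (f u.1) (f v.1) := by
  induction p with
  | nil => exact JoinedIn.refl (carrier_vertex (hBS (Subtype.coe_prop _)))
  | @cons a b c h p ih =>
    exact (joined_adj h1 (hBS a.2) (hBS b.2) h).trans ih

theorem carrier_disjoint (hf : Function.Injective f)
    (h1 : ∀ u v : V, G.Adj u v → Continuous (γ u v) ∧ γ u v 0 = f u ∧ γ u v 1 = f v)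
    (h2 : ∀ (u v w : V) (t : unitInterval), G.Adj u v → t ≠ 0 → t ≠ 1 → γ u v t ≠ f w)
    (h3 : ∀ (u v x y : V) (a b : unitInterval), G.Adj u v → G.Adj x y →
        u ≠ x → u ≠ y → v ≠ x → v ≠ y →
        a ≠ 0 → a ≠ 1 → b ≠ 0 → b ≠ 1 → γ u v a ≠ γ x y b)
    {S T : Set V} (hST : Disjoint S T) {z : ℂ} (hS : z ∈ carrier G f γ S)
    (hT : z ∈ carrier G f γ T) : False := by
  rw [Set.disjoint_left] at hST
  have hne : ∀ a ∈ S, ∀ b ∈ T, a ≠ b := fun a ha b hb h => hST ha (h ▸ hb)
  -- a vertex point of one carrier is not in the other one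
  have key : ∀ (S T : Set V), (∀ a, a ∈ S → a ∉ T) → ∀ w ∈ S, f w ∉ carrier G f γ T := by
    intro S T hd w hw hz
    rcases hz with ⟨x, hx, e⟩ | ⟨x, hx, y, hy, hxy, b, e⟩
    · exact hd w hw (hf e ▸ hx)
    · obtain ⟨-, e0, e1⟩ := h1 x y hxy
      by_cases b0 : b = 0
      · rw [b0, e0] at e; exact hd w hw (hf e ▸ hx)
      · by_cases b1 : b = 1
        · rw [b1, e1] at e; exact hd w hw (hf e ▸ hy)
        · exact h2 x y w b hxy b0 b1 e.symm
  rcases hS with ⟨w, hw, rfl⟩ | ⟨u, hu, v, hv, huv, a, e⟩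
  · exact key S T (fun a ha hb => hST ha hb) w hw hT
  · obtain ⟨-, e0, e1⟩ := h1 u v huv
    by_cases a0 : a = 0
    · rw [a0, e0] at e; rw [e] at hT; exact key S T (fun a ha hb => hST ha hb) u hu hT
    · by_cases a1 : a = 1
      · rw [a1, e1] at e; rw [e] at hT; exact key S T (fun a ha hb => hST ha hb) v hv hT
      · rcases hT with ⟨w, hw, e'⟩ | ⟨x, hx, y, hy, hxy, b, e'⟩
        · exact h2 u v w a huv a0 a1 (e.symm.trans e')
        · obtain ⟨-, e0', e1'⟩ := h1 x y hxy
          by_cases b0 : b = 0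
          · rw [b0, e0'] at e'
            exact h2 u v x a huv a0 a1 (e.symm.trans e')
          · by_cases b1 : b = 1
            · rw [b1, e1'] at e'
              exact h2 u v y a huv a0 a1 (e.symm.trans e')
            · exact h3 u v x y a b huv hxy (hne u hu x hx) (hne u hu y hy) (hne v hv x hx)
                (hne v hv y hy) a0 a1 b0 b1 (e.symm.trans e')

end

theorem not_hasK5Model {V : Type} (G : SimpleGraph V) (h : Drawn G) :
    ¬ Pool.Agent.Lib.K5.HasK5Model G := by
  rintro ⟨B, hconn, hdisj, hadj⟩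
  obtain ⟨f, hf, γ, h1, h2, h3⟩ := h
  have hne : ∀ i, (B i).Nonempty := by
    intro i
    obtain ⟨x⟩ := (hconn i).nonempty
    exact ⟨x.1, x.2⟩
  choose r hr using hne
  have hj : ∀ i j : Fin 5, i ≠ j →
      JoinedIn (carrier G f γ (B i ∪ B j)) (f (r i)) (f (r j)) := by
    intro i j hij
    obtain ⟨u, hu, v, hv, huv⟩ := hadj i j hij
    obtain ⟨p⟩ := (hconn i).preconnected ⟨r i, hr i⟩ ⟨u, hu⟩
    obtain ⟨q⟩ := (hconn j).preconnected ⟨v, hv⟩ ⟨r j, hr j⟩
    have a1 := joined_walk h1 (S := B i ∪ B j) Set.subset_union_left p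
    have a2 := joined_adj h1 (S := B i ∪ B j) (Or.inl hu) (Or.inr hv) huv
    have a3 := joined_walk h1 (S := B i ∪ B j) Set.subset_union_right q
    exact (a1.trans a2).trans a3
  have hP : ∀ i j : Fin 5, ∃ P : Path (f (r i)) (f (r j)), i ≠ j →
      ∀ t, P t ∈ carrier G f γ (B i ∪ B j) := by
    intro i j
    by_cases hij : i = j
    · subst hij
      exact ⟨Path.refl _, fun h => absurd rfl h⟩
    · obtain ⟨P, hP⟩ := hj i j hij
      exact ⟨P, fun _ => hP⟩
  choose P hP using hP
  obtain ⟨i, j, k, l, hij, hkl, hik, hil, hjk, hjl, s, t, hst⟩ :=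
    Pool.Agent.Lib.VKF.vkf (fun i => f (r i)) P
  have z1 := hP i j hij.ne s
  have z2 := hP k l hkl.ne t
  rw [hst] at z1
  refine carrier_disjoint hf h1 h2 h3 ?_ z1 z2
  rw [Set.disjoint_union_left, Set.disjoint_union_right, Set.disjoint_union_right]
  exact ⟨⟨hdisj i k hik, hdisj i l hil⟩, hdisj j k hjk, hdisj j l hjl⟩

/-- Every set `U` of vertices of a drawn graph spans at most `3|U|` edges. -/
theorem sparse {V : Type} [Fintype V] (G : SimpleGraph V) (h : Drawn G) (U : Finset V) :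
    ∑ w ∈ U, (Rec.nb G U w).card ≤ 6 * U.card := by
  have h1 := Pool.Agent.Lib.K5.card_edges_le (G.induce (U : Set V))
    (not_hasK5Model _ (h.induce (U : Set V)))
  have h2 := (G.induce (U : Set V)).sum_degrees_eq_twice_card_edges
  have h3 : ∑ w ∈ U, (Rec.nb G U w).card = ∑ w : (U : Set V), (G.induce (U : Set V)).degree w := by
    have : ∀ w : (U : Set V), (G.induce (U : Set V)).degree w = (Rec.nb G U w.1).card := by
      intro w
      unfold SimpleGraph.degree
      rw [← card_map (Function.Embedding.subtype (fun x => x ∈ (U : Set V)))]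
      congr 1
      ext u
      simp only [mem_map, SimpleGraph.mem_neighborFinset, SimpleGraph.comap_adj,
        Function.Embedding.subtype_apply, Rec.mem_nb]
      constructor
      · rintro ⟨a, ha, rfl⟩
        exact ⟨a.2, ha⟩
      · rintro ⟨hu, hadj⟩
        exact ⟨⟨u, hu⟩, hadj, rfl⟩
    rw [sum_congr rfl (fun w _ => this w)]
    symm
    exact sum_coe_sort U (fun w => (Rec.nb G U w).card)
  rw [h3, h2]
  have h4 : Fintype.card (U : Set V) = U.card := by simp
  rw [h4] at h1
  omega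

/-- **Main theorem**: with `r + 1 ≥ 8` colours, any two proper colourings of a drawn graph are
joined by at most `(r + 1) r² n` single-vertex recolourings. -/
theorem recolour {V : Type} [Fintype V] {r : ℕ} (hr : 7 ≤ r) (G : SimpleGraph V) (h : Drawn G)
    (c₁ c₂ : V → Fin (r + 1)) (h₁ : ∀ u v : V, G.Adj u v → c₁ u ≠ c₁ v)
    (h₂ : ∀ u v : V, G.Adj u v → c₂ u ≠ c₂ v) :
    ∃ m : ℕ, m ≤ (r + 1) * (r * (r * Fintype.card V)) ∧
      ∃ seq : ℕ → V → Fin (r + 1), seq 0 = c₁ ∧ seq m = c₂ ∧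
        (∀ i ≤ m, ∀ u v : V, G.Adj u v → seq i u ≠ seq i v) ∧
        (∀ i < m, ∃ w : V, ∀ v : V, v ≠ w → seq (i + 1) v = seq i v) := by
  obtain ⟨σ, hval, hrun, hlen⟩ := Rec.linear (r := r) (D := 6) hr (sparse G h)
    (α := c₁) (β := c₂) (fun u _ v _ => h₁ u v) (fun u _ v _ => h₂ u v)
  refine ⟨σ.length, hlen, fun i => Rec.run c₁ (σ.take i), rfl, ?_, ?_, ?_⟩
  · simp only [List.take_length]
    exact hrun
  · intro i _
    have key : ∀ (σ : List (V × Fin (r + 1))) (c : V → Fin (r + 1)) (i : ℕ),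
        Rec.Valid G univ c σ → Rec.ProperOn G univ (Rec.run c (σ.take i)) := by
      intro σ
      induction σ with
      | nil =>
        intro c i hc
        rw [List.take_nil]
        exact hc
      | cons m σ ih =>
        intro c i hc
        cases i with
        | zero => exact hc.1
        | succ i =>
          rw [List.take_succ_cons]
          exact ih _ i hc.2.2
    intro u v huv
    exact key σ c₁ i hval u (mem_univ _) v (mem_univ _) huv
  · intro i hi
    refine ⟨(σ[i]).1, fun v hv => ?_⟩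
    simp only
    rw [List.take_succ_eq_append_getElem hi, Rec.run_append]
    show Rec.step _ _ v = _
    unfold Rec.step
    rw [Function.update_of_ne hv]

end Pool.Agent.helper22.PlanarRec
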