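import Pool.Agent.helper65.GCA.Defs

/-!
# Module A11 of MP_5e4b6b_an: the parameter spaces have finitely many path components

The theorem is stated with the result of module A10d as a hypothesis (`finPC_good_of`).
-/

set_option autoImplicit false

namespace Pool.Agent.helper65.GCA

open Set Topology unitInterval Polynomial

namespace A11

variable {d n N : ℕ}

/-- generic numerator -/
noncomputable def gA (d n N : ℕ) : (MvPolynomial (Idx d n N) ℂ)[X] :=
  ∑ k : Fin (d + 1), C (MvPolynomial.X (.A k)) * X ^ (k : ℕ)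

/-- generic denominator -/
noncomputable def gB (d n N : ℕ) : (MvPolynomial (Idx d n N) ℂ)[X] :=
  ∑ k : Fin (d + 1), C (MvPolynomial.X (.B k)) * X ^ (k : ℕ)

/-- generic `polyT` -/
noncomputable def gT (d n N : ℕ) : Option (Fin n) → (MvPolynomial (Idx d n N) ℂ)[X]
  | none => gB d n N
  | some i => gA d n N - C (MvPolynomial.X (.p i)) * gB d n N

lemma map_gA (x : Idx d n N → ℂ) : (gA d n N).map (MvPolynomial.eval x) = polyA x := by
  simp [gA, polyA, Polynomial.map_sum]

lemma map_gB (x : Idx d n N → ℂ) : (gB d n N).map (MvPolynomial.eval x) = polyB x := by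
  simp [gB, polyB, Polynomial.map_sum]

lemma map_gT (x : Idx d n N → ℂ) (i : Option (Fin n)) :
    (gT d n N i).map (MvPolynomial.eval x) = polyT x i := by
  cases i with
  | none => simp [gT, polyT, map_gB]
  | some i => simp [gT, polyT, map_gA, map_gB]

/-- generic `fact` -/
noncomputable def gF (D : Data d n N) (i : Option (Fin n)) : (MvPolynomial (Idx d n N) ℂ)[X] :=
  gT d n N i - C (MvPolynomial.X (.a i)) *
    ∏ l ∈ Finset.univ.filter (fun l => D.L l = i),
      (X - C (MvPolynomial.X (.q l))) ^ (D.e l : ℕ)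

/-- generic `wron` -/
noncomputable def gW (D : Data d n N) : (MvPolynomial (Idx d n N) ℂ)[X] :=
  (derivative (gA d n N) * gB d n N - gA d n N * derivative (gB d n N)) -
    C (MvPolynomial.X .w) * ∏ l, (X - C (MvPolynomial.X (.q l))) ^ ((D.e l : ℕ) - 1)

lemma map_gF (D : Data d n N) (x : Idx d n N → ℂ) (i : Option (Fin n)) :
    (gF D i).map (MvPolynomial.eval x) = polyT x i - C (x (.a i)) *
      ∏ l ∈ Finset.univ.filter (fun l => D.L l = i), (X - C (x (.q l))) ^ (D.e l : ℕ) := by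
  simp [gF, map_gT, Polynomial.map_prod]

lemma map_gW (D : Data d n N) (x : Idx d n N → ℂ) :
    (gW D).map (MvPolynomial.eval x) =
      (derivative (polyA x) * polyB x - polyA x * derivative (polyB x)) -
      C (x .w) * ∏ l, (X - C (x (.q l))) ^ ((D.e l : ℕ) - 1) := by
  simp [gW, map_gA, map_gB, Polynomial.map_prod, ← Polynomial.derivative_map]

/-- the equations -/
def eqs (D : Data d n N) : Set (MvPolynomial (Idx d n N) ℂ) :=
  {f | (∃ i k, f = (gF D i).coeff k) ∨ (∃ k, f = (gW D).coeff k) ∨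
    (∃ i, f = MvPolynomial.X (.p i) - MvPolynomial.X (.q (D.s i))) ∨
    f = (gT d n N D.k).coeff d}

/-- the inequations -/
noncomputable def ineq (d n N : ℕ) : MvPolynomial (Idx d n N) ℂ :=
  (∏ i : Option (Fin n), MvPolynomial.X (.a i)) * MvPolynomial.X .w *
    (∏ ij ∈ (Finset.univ : Finset (Fin n × Fin n)).filter (fun ij => ij.1 ≠ ij.2),
      (MvPolynomial.X (.p ij.1) - MvPolynomial.X (.p ij.2))) *
    (∏ ij ∈ (Finset.univ : Finset (Fin N × Fin N)).filter (fun ij => ij.1 ≠ ij.2),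
      (MvPolynomial.X (.q ij.1) - MvPolynomial.X (.q ij.2)))

lemma eval_ineq (x : Idx d n N → ℂ) : MvPolynomial.eval x (ineq d n N) ≠ 0 ↔
    (∀ i, x (.a i) ≠ 0) ∧ x .w ≠ 0 ∧ (∀ i j, i ≠ j → x (.p i) ≠ x (.p j)) ∧
      (∀ l m, l ≠ m → x (.q l) ≠ x (.q m)) := by
  simp only [ineq, map_mul, map_prod, map_sub, MvPolynomial.eval_X, mul_ne_zero_iff,
    Finset.prod_ne_zero_iff, Finset.mem_univ, true_implies, Finset.mem_filter, true_and,
    sub_ne_zero, Prod.forall, and_assoc]

lemma eval_eqs (D : Data d n N) (x : Idx d n N → ℂ) :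
    (∀ f ∈ eqs D, MvPolynomial.eval x f = 0) ↔
      (∀ i : Option (Fin n), polyT x i =
        C (x (.a i)) * ∏ l ∈ Finset.univ.filter (fun l => D.L l = i),
          (X - C (x (.q l))) ^ (D.e l : ℕ)) ∧
      (derivative (polyA x) * polyB x - polyA x * derivative (polyB x) =
        C (x .w) * ∏ l, (X - C (x (.q l))) ^ ((D.e l : ℕ) - 1)) ∧
      (∀ i, x (.p i) = x (.q (D.s i))) ∧ (polyT x D.k).coeff d = 0 := by
  constructor
  · intro h
    refine ⟨fun i => ?_, ?_, fun i => ?_, ?_⟩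
    · rw [← sub_eq_zero, ← map_gF]
      ext k
      rw [Polynomial.coeff_map, Polynomial.coeff_zero]
      exact h _ (Or.inl ⟨i, k, rfl⟩)
    · rw [← sub_eq_zero, ← map_gW]
      ext k
      rw [Polynomial.coeff_map, Polynomial.coeff_zero]
      exact h _ (Or.inr (Or.inl ⟨k, rfl⟩))
    · have := h _ (Or.inr (Or.inr (Or.inl ⟨i, rfl⟩)))
      simpa [sub_eq_zero] using this
    · have := h _ (Or.inr (Or.inr (Or.inr rfl)))
      rw [← map_gT, Polynomial.coeff_map]
      exact this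
  · rintro ⟨h1, h2, h3, h4⟩ f hf
    rcases hf with ⟨i, k, rfl⟩ | ⟨k, rfl⟩ | ⟨i, rfl⟩ | rfl
    · rw [← Polynomial.coeff_map, map_gF, h1 i, sub_self, Polynomial.coeff_zero]
    · rw [← Polynomial.coeff_map, map_gW, h2, sub_self, Polynomial.coeff_zero]
    · simp [h3 i]
    · rw [← Polynomial.coeff_map, map_gT, h4]

lemma finPC_union {E : Type*} [TopologicalSpace E] {S T : Set E} (hS : FinPC S) (hT : FinPC T) :
    FinPC (S ∪ T) := by
  obtain ⟨A, hA, hA1, rfl⟩ := hS
  obtain ⟨B, hB, hB1, rfl⟩ := hT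
  exact ⟨A ∪ B, hA.union hB, fun C hC => hC.elim (hA1 C) (hB1 C), sUnion_union A B⟩

end A11

open A11 in
/-- mod:A11, with A10d as a hypothesis. -/
theorem finPC_good_of {d n N : ℕ}
    (hA10d : ∀ (S : Set (MvPolynomial (Idx d n N) ℂ)) (g : MvPolynomial (Idx d n N) ℂ),
      FinPC {x : Idx d n N → ℂ | (∀ f ∈ S, MvPolynomial.eval x f = 0) ∧
        MvPolynomial.eval x g ≠ 0})
    (D : Data d n N) : FinPC {x | Good D x} := by
  by_cases he : ∀ l, 1 ≤ (D.e l : ℕ)
  · have : {x | Good D x} =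
        {x : Idx d n N → ℂ | (∀ f ∈ eqs D, MvPolynomial.eval x f = 0) ∧
          MvPolynomial.eval x (ineq d n N * MvPolynomial.X (.A (Fin.last d))) ≠ 0} ∪
        {x : Idx d n N → ℂ | (∀ f ∈ eqs D, MvPolynomial.eval x f = 0) ∧
          MvPolynomial.eval x (ineq d n N * MvPolynomial.X (.B (Fin.last d))) ≠ 0} := by
      ext x
      simp only [mem_ofPred_eq, mem_union, eval_eqs, map_mul, mul_ne_zero_iff, eval_ineq,
        MvPolynomial.eval_X]
      constructor
      · intro h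
        rcases h.lead with hl | hl
        · exact Or.inl ⟨⟨h.fact, h.wron, h.mem, h.infk⟩, ⟨h.a_ne, h.w_ne, h.p_inj, h.q_inj⟩, hl⟩
        · exact Or.inr ⟨⟨h.fact, h.wron, h.mem, h.infk⟩, ⟨h.a_ne, h.w_ne, h.p_inj, h.q_inj⟩, hl⟩
      · rintro (⟨⟨h1, h2, h3, h4⟩, ⟨h5, h6, h7, h8⟩, hl⟩ | ⟨⟨h1, h2, h3, h4⟩, ⟨h5, h6, h7, h8⟩, hl⟩)
        · exact ⟨h1, h2, h3, h4, h5, h6, h7, h8, he, Or.inl hl⟩
        · exact ⟨h1, h2, h3, h4, h5, h6, h7, h8, he, Or.inr hl⟩
    rw [this]
    exact finPC_union (hA10d _ _) (hA10d _ _)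
  · have : {x | Good D x} = ∅ := by
      ext x
      simp only [mem_ofPred_eq, mem_empty_iff_false, iff_false]
      exact fun h => he h.e_pos
    rw [this]
    exact ⟨∅, finite_empty, by simp, by simp⟩

end Pool.Agent.helper65.GCA
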