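import Pool.Agent.helper65.GCA.Defs

/-!
# Module T3 of MP_5e4b6b_an: continuity of rational maps in families
-/

set_option autoImplicit false

namespace Pool.Agent.helper65.GCA

open Set Topology unitInterval Polynomial Filter

namespace T3

lemma toSphere_mul (c a b : ℂ) (hc : c ≠ 0) : toSphere (c * a) (c * b) = toSphere a b := by
  unfold toSphere
  by_cases hb : b = 0
  · simp [hb]
  · rw [if_neg (mul_ne_zero hc hb), if_neg hb, mul_div_mul_left _ _ hc]

lemma continuousAt_toSphere (a b : ℂ) (h : a ≠ 0 ∨ b ≠ 0) :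
    ContinuousAt (fun p : ℂ × ℂ => toSphere p.1 p.2) (a, b) := by
  by_cases hb : b = 0
  · subst hb
    have ha : a ≠ 0 := h.resolve_right (by simp)
    have h0 : toSphere a 0 = OnePoint.infty := by simp [toSphere]
    rw [ContinuousAt]
    simp only [h0]
    rw [OnePoint.hasBasis_nhds_infty.tendsto_right_iff]
    rintro s ⟨-, hs⟩
    obtain ⟨M, hM⟩ := hs.isBounded.exists_norm_le
    have hM0 : 0 < max M 0 + 1 := by positivity
    have hna : 0 < ‖a‖ := norm_pos_iff.2 ha
    have h1 : ∀ᶠ p : ℂ × ℂ in 𝓝 (a, 0), ‖a‖ / 2 < ‖p.1‖ := by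
      have : ContinuousAt (fun p : ℂ × ℂ => ‖p.1‖) (a, 0) := by fun_prop
      exact this.eventually (lt_mem_nhds (by simpa using half_lt_self hna))
    have h2 : ∀ᶠ p : ℂ × ℂ in 𝓝 (a, 0), ‖p.2‖ < ‖a‖ / (2 * (max M 0 + 1)) := by
      have : ContinuousAt (fun p : ℂ × ℂ => ‖p.2‖) (a, 0) := by fun_prop
      exact this.eventually (gt_mem_nhds (by simp; positivity))
    filter_upwards [h1, h2] with p hp1 hp2
    by_cases hp : p.2 = 0
    · right
      simp [toSphere, hp]
    · left
      refine ⟨p.1 / p.2, fun hmem => ?_, by simp [toSphere, hp]⟩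
      have h3 := hM _ hmem
      have h4 : 0 < ‖p.2‖ := norm_pos_iff.2 hp
      rw [norm_div, div_le_iff₀ h4] at h3
      have h5 : M * ‖p.2‖ ≤ (max M 0 + 1) * ‖p.2‖ := by
        have : M ≤ max M 0 + 1 := (le_max_left M 0).trans (by linarith)
        exact mul_le_mul_of_nonneg_right this h4.le
      have h6 : (max M 0 + 1) * ‖p.2‖ < (max M 0 + 1) * (‖a‖ / (2 * (max M 0 + 1))) :=
        mul_lt_mul_of_pos_left hp2 hM0
      have h7 : (max M 0 + 1) * (‖a‖ / (2 * (max M 0 + 1))) = ‖a‖ / 2 := by
        field_simp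
      linarith
  · have h0 : (fun p : ℂ × ℂ => toSphere p.1 p.2) =ᶠ[𝓝 (a, b)]
        fun p => ((p.1 / p.2 : ℂ) : S2) := by
      have : ∀ᶠ p : ℂ × ℂ in 𝓝 (a, b), p.2 ≠ 0 := by
        have : ContinuousAt (fun p : ℂ × ℂ => p.2) (a, b) := by fun_prop
        exact this.eventually_ne hb
      filter_upwards [this] with p hp
      simp [toSphere, hp]
    rw [continuousAt_congr h0]
    refine OnePoint.continuous_coe.continuousAt.comp ?_
    exact continuousAt_fst.div continuousAt_snd hb

/-- the inversion `z ↦ 1 / z` as a function to `ℂ`, with `∞ ↦ 0`. -/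
noncomputable def inv : S2 → ℂ
  | OnePoint.infty => 0
  | OnePoint.some z => z⁻¹

lemma tinv_continuousAt : ContinuousAt inv OnePoint.infty := by
  rw [OnePoint.continuousAt_infty']
  have : (inv ∘ ((↑) : ℂ → S2)) = fun z => z⁻¹ := rfl
  rw [this, coclosedCompact_eq_cocompact, ← Metric.cobounded_eq_cocompact]
  exact tendsto_inv₀_cobounded

variable {d n N : ℕ}

lemma eval_polyA (x : Idx d n N → ℂ) (w : ℂ) :
    (polyA x).eval w = ∑ k : Fin (d + 1), x (.A k) * w ^ (k : ℕ) := by
  simp [polyA, Polynomial.eval_finsetSum]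

lemma eval_polyB (x : Idx d n N → ℂ) (w : ℂ) :
    (polyB x).eval w = ∑ k : Fin (d + 1), x (.B k) * w ^ (k : ℕ) := by
  simp [polyB, Polynomial.eval_finsetSum]

lemma coeff_polyA (x : Idx d n N → ℂ) : (polyA x).coeff d = x (.A (Fin.last d)) := by
  simp only [polyA, Polynomial.finsetSum_coeff, Polynomial.coeff_C_mul, Polynomial.coeff_X_pow]
  rw [Finset.sum_eq_single (Fin.last d)]
  · simp
  · intro b _ hb
    have : d ≠ (b : ℕ) := fun h => hb (Fin.ext (by simp [← h]))
    simp [this]
  · simp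

lemma coeff_polyB (x : Idx d n N → ℂ) : (polyB x).coeff d = x (.B (Fin.last d)) := by
  simp only [polyB, Polynomial.finsetSum_coeff, Polynomial.coeff_C_mul, Polynomial.coeff_X_pow]
  rw [Finset.sum_eq_single (Fin.last d)]
  · simp
  · intro b _ hb
    have : d ≠ (b : ℕ) := fun h => hb (Fin.ext (by simp [← h]))
    simp [this]
  · simp

lemma ne_zero_of_coprime {A B : ℂ[X]} (h : IsCoprime A B) (w : ℂ) :
    A.eval w ≠ 0 ∨ B.eval w ≠ 0 := by
  by_contra hcon
  push Not at hcon
  obtain ⟨a, b, hab⟩ := h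
  have := congrArg (Polynomial.eval w) hab
  simp [hcon.1, hcon.2] at this

end T3

open T3 in
/-- mod:T3. -/
theorem continuous_pMap {d n N : ℕ} {T : Type*} [TopologicalSpace T] (x : T → Idx d n N → ℂ)
    (hx : Continuous x) (hc : ∀ t, IsCoprime (polyA (x t)) (polyB (x t)))
    (hl : ∀ t, x t (.A (Fin.last d)) ≠ 0 ∨ x t (.B (Fin.last d)) ≠ 0) :
    Continuous (fun y : T × S2 => pMap (x y.1) y.2) := by
  rw [continuous_iff_continuousAt]
  rintro ⟨t, z⟩
  have hxc : ∀ i : Idx d n N, Continuous fun t => x t i := fun i => (continuous_apply i).comp hx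
  induction z using OnePoint.rec with
  | infty =>
    let g : T × ℂ → S2 := fun y => toSphere (∑ k : Fin (d + 1), x y.1 (.A k) * y.2 ^ (d - (k : ℕ)))
      (∑ k : Fin (d + 1), x y.1 (.B k) * y.2 ^ (d - (k : ℕ)))
    have hzero : ∀ f : Fin (d + 1) → ℂ, (∑ k : Fin (d + 1), f k * (0 : ℂ) ^ (d - (k : ℕ))) =
        f (Fin.last d) := by
      intro f
      rw [Finset.sum_eq_single (Fin.last d)]
      · simp
      · intro b _ hb
        have : (b : ℕ) ≠ d := fun h => hb (Fin.ext (by simp [h]))
        have h2 : d - (b : ℕ) ≠ 0 := by have := b.2; omega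
        simp [h2]
      · simp
    have hg : ContinuousAt g (t, 0) := by
      have h1 : ContinuousAt (fun y : T × ℂ =>
          ((∑ k : Fin (d + 1), x y.1 (.A k) * y.2 ^ (d - (k : ℕ)),
            ∑ k : Fin (d + 1), x y.1 (.B k) * y.2 ^ (d - (k : ℕ))) : ℂ × ℂ)) (t, 0) := by
        refine Continuous.continuousAt ?_
        refine Continuous.prodMk ?_ ?_
        · exact continuous_finsetSum _ fun k _ => ((hxc _).comp continuous_fst).mul
            (continuous_snd.pow _)
        · exact continuous_finsetSum _ fun k _ => ((hxc _).comp continuous_fst).mul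
            (continuous_snd.pow _)
      refine ContinuousAt.comp (g := fun p : ℂ × ℂ => toSphere p.1 p.2) ?_ h1
      apply continuousAt_toSphere
      simp only [hzero]
      exact hl t
    have hgi : ContinuousAt (fun y : T × S2 => g (y.1, inv y.2)) (t, OnePoint.infty) := by
      refine ContinuousAt.comp (g := g) (f := fun y : T × S2 => (y.1, inv y.2)) hg ?_
      exact continuousAt_fst.prodMk (ContinuousAt.comp (g := inv) (f := fun y : T × S2 => y.2) tinv_continuousAt continuousAt_snd)
    refine hgi.congr ?_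
    have hev : ∀ᶠ y : T × S2 in 𝓝 (t, OnePoint.infty), y.2 ≠ ((0 : ℂ) : S2) := by
      have : ContinuousAt (fun y : T × S2 => y.2) (t, OnePoint.infty) := continuousAt_snd
      exact this.eventually_ne (OnePoint.infty_ne_coe _)
    filter_upwards [hev] with y hy
    obtain ⟨s, z⟩ := y
    induction z using OnePoint.rec with
    | infty =>
      change g (s, 0) = toSphere _ _
      simp only [g, hzero, coeff_polyA, coeff_polyB]
    | coe w =>
      have hw : w ≠ 0 := fun h => hy (by simp [h])
      change g (s, w⁻¹) = toSphere _ _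
      rw [← toSphere_mul (w⁻¹ ^ d) _ _ (pow_ne_zero _ (inv_ne_zero hw))]
      have key : ∀ f : Fin (d + 1) → ℂ, (∑ k : Fin (d + 1), f k * (w⁻¹) ^ (d - (k : ℕ))) =
          w⁻¹ ^ d * ∑ k : Fin (d + 1), f k * w ^ (k : ℕ) := by
        intro f
        rw [Finset.mul_sum]
        refine Finset.sum_congr rfl fun k _ => ?_
        have hk : (k : ℕ) ≤ d := Nat.lt_succ_iff.1 k.2
        have h1 : w⁻¹ ^ d = w⁻¹ ^ (d - (k : ℕ)) * w⁻¹ ^ (k : ℕ) := by
          rw [← pow_add]; congr 1; omega
        have h2 : w⁻¹ ^ (k : ℕ) * w ^ (k : ℕ) = 1 := by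
          rw [← mul_pow, inv_mul_cancel₀ hw, one_pow]
        rw [h1]
        calc f k * w⁻¹ ^ (d - (k : ℕ)) = w⁻¹ ^ (d - (k : ℕ)) * f k * 1 := by ring
          _ = w⁻¹ ^ (d - (k : ℕ)) * f k * (w⁻¹ ^ (k : ℕ) * w ^ (k : ℕ)) := by rw [h2]
          _ = _ := by ring
      simp only [g, key, eval_polyA, eval_polyB]
  | coe w =>
    have hemb : IsOpenEmbedding (Prod.map (id : T → T) ((↑) : ℂ → S2)) :=
      IsOpenEmbedding.id.prodMap OnePoint.isOpenEmbedding_coe
    have : ContinuousAt ((fun y : T × S2 => pMap (x y.1) y.2) ∘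
        (Prod.map (id : T → T) ((↑) : ℂ → S2))) (t, w) := by
      change ContinuousAt (fun y : T × ℂ => toSphere ((polyA (x y.1)).eval y.2)
        ((polyB (x y.1)).eval y.2)) (t, w)
      refine ContinuousAt.comp (g := fun p : ℂ × ℂ => toSphere p.1 p.2)
        (f := fun y : T × ℂ => ((polyA (x y.1)).eval y.2, (polyB (x y.1)).eval y.2)) ?_ ?_
      · exact continuousAt_toSphere _ _ (ne_zero_of_coprime (hc t) w)
      · refine Continuous.continuousAt ?_
        simp only [eval_polyA, eval_polyB]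
        refine Continuous.prodMk ?_ ?_
        · exact continuous_finsetSum _ fun k _ => ((hxc _).comp continuous_fst).mul
            (continuous_snd.pow _)
        · exact continuous_finsetSum _ fun k _ => ((hxc _).comp continuous_fst).mul
            (continuous_snd.pow _)
    exact hemb.continuousAt_iff.1 this

end Pool.Agent.helper65.GCA
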