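import Pool.Agent.helper22.GCA_T3

/-!
# Module T4 of MP_5e4b6b_an: Moebius normalisation, `∞` may be assumed marked
-/

set_option autoImplicit false

namespace Pool.Agent.helper65.GCA

open Set Topology unitInterval Polynomial Filter

namespace T4

/-! ### A convenient form of `IsRational` -/

/-- degree at most `d`, and one of the two coefficients of degree `d` does not vanish -/
def Lead (d : ℕ) (A B : ℂ[X]) : Prop :=
  A.natDegree ≤ d ∧ B.natDegree ≤ d ∧ (A.coeff d ≠ 0 ∨ B.coeff d ≠ 0)

lemma lead_of_max {d : ℕ} {A B : ℂ[X]} (hc : IsCoprime A B)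
    (h : max A.natDegree B.natDegree = d) : Lead d A B := by
  have hA : A.natDegree ≤ d := h ▸ le_max_left _ _
  have hB : B.natDegree ≤ d := h ▸ le_max_right _ _
  refine ⟨hA, hB, ?_⟩
  by_contra hcon
  push Not at hcon
  obtain ⟨h1, h2⟩ := hcon
  have key : ∀ A : ℂ[X], A.natDegree = d → A.coeff d = 0 → A = 0 := by
    intro A hA h0
    rw [← hA] at h0
    exact Polynomial.leadingCoeff_eq_zero.1 h0
  rcases max_choice A.natDegree B.natDegree with h3 | h3
  · rw [h] at h3
    have hA0 := key A h3.symm h1
    have hd : d = 0 := by rw [h3, hA0, Polynomial.natDegree_zero]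
    have hB0 : B = 0 := key B (by omega) h2
    rw [hA0, hB0] at hc
    exact not_isCoprime_zero_zero hc
  · rw [h] at h3
    have hB0 := key B h3.symm h2
    have hd : d = 0 := by rw [h3, hB0, Polynomial.natDegree_zero]
    have hA0 : A = 0 := key A (by omega) h1
    rw [hA0, hB0] at hc
    exact not_isCoprime_zero_zero hc

lemma max_of_lead {d : ℕ} {A B : ℂ[X]} (h : Lead d A B) : max A.natDegree B.natDegree = d := by
  obtain ⟨hA, hB, h | h⟩ := h
  · have := Polynomial.le_natDegree_of_ne_zero h
    rw [max_eq_left (hB.trans this)]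
    omega
  · have := Polynomial.le_natDegree_of_ne_zero h
    rw [max_eq_right (hA.trans this)]
    omega

/-! ### Continuity of a single rational map -/

lemma continuous_ratMap {d : ℕ} {A B : ℂ[X]} (hc : IsCoprime A B) (h : Lead d A B) :
    Continuous (ratMap d A B) := by
  let x : Idx d 0 0 → ℂ := fun i => match i with
    | .A k => A.coeff k
    | .B k => B.coeff k
    | _ => 0
  have hA : polyA x = A := by
    ext m
    simp only [polyA, Polynomial.finsetSum_coeff, Polynomial.coeff_C_mul, Polynomial.coeff_X_pow]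
    by_cases hm : m ≤ d
    · rw [Finset.sum_eq_single (⟨m, Nat.lt_succ_of_le hm⟩ : Fin (d + 1))]
      · simp [x]
      · intro b _ hb
        have : m ≠ (b : ℕ) := fun h => hb (Fin.ext (by simp [h]))
        simp [this]
      · simp
    · have : A.coeff m = 0 := Polynomial.coeff_eq_zero_of_natDegree_lt (by have := h.1; omega)
      rw [this]
      refine Finset.sum_eq_zero fun b _ => ?_
      have : m ≠ (b : ℕ) := by have := b.2; omega
      simp [this]
  have hB : polyB x = B := by
    ext m
    simp only [polyB, Polynomial.finsetSum_coeff, Polynomial.coeff_C_mul, Polynomial.coeff_X_pow]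
    by_cases hm : m ≤ d
    · rw [Finset.sum_eq_single (⟨m, Nat.lt_succ_of_le hm⟩ : Fin (d + 1))]
      · simp [x]
      · intro b _ hb
        have : m ≠ (b : ℕ) := fun h => hb (Fin.ext (by simp [h]))
        simp [this]
      · simp
    · have : B.coeff m = 0 := Polynomial.coeff_eq_zero_of_natDegree_lt (by have := h.2.1; omega)
      rw [this]
      refine Finset.sum_eq_zero fun b _ => ?_
      have : m ≠ (b : ℕ) := by have := b.2; omega
      simp [this]
  have h1 := continuous_pMap (T := Unit) (fun _ => x) continuous_const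
    (fun _ => by rw [hA, hB]; exact hc) (fun _ => by simpa [x] using h.2.2)
  have h2 : ratMap d A B = (fun y : Unit × S2 => pMap x y.2) ∘ fun z => ((), z) := by
    ext z
    simp [pMap, hA, hB]
  rw [h2]
  exact h1.comp (by fun_prop)

/-! ### Conjugation by a homeomorphism -/

lemma crit_conj (R : S2 → S2) (M : S2 ≃ₜ S2) {y : S2} (hy : y ∈ crit (M ∘ R ∘ M.symm)) :
    M.symm y ∈ crit R := by
  rintro ⟨U, hU, hinj⟩
  apply hy
  refine ⟨M.symm ⁻¹' U, M.symm.continuous.continuousAt.preimage_mem_nhds hU, ?_⟩
  intro a ha b hb hab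
  simp only [Function.comp_apply] at hab
  exact M.symm.injective (hinj ha hb (M.injective hab))

lemma ratPair_conj {d n : ℕ} {R : S2 → S2} {P : Set S2} (h : RatPair d n R P) (M : S2 ≃ₜ S2)
    (hM : IsRational d (M ∘ R ∘ M.symm)) :
    RatPair d n (M ∘ R ∘ M.symm) (M '' P) ∧ IsoPair R P (M ∘ R ∘ M.symm) (M '' P) := by
  obtain ⟨-, hfin, hcard, hmap, hcrit⟩ := h
  refine ⟨⟨hM, hfin.image _, ?_, ?_, ?_⟩, M, M, fun x => by simp, IsotopicRel.refl _ _, rfl⟩
  · rw [Set.ncard_image_of_injective _ M.injective, hcard]
  · rintro _ ⟨x, hx, rfl⟩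
    exact ⟨R x, hmap hx, by simp⟩
  · intro y hy
    exact ⟨R (M.symm y), hcrit (crit_conj R M hy), rfl⟩

/-! ### Translations -/

/-- translation by `-c` -/
noncomputable def tr (c : ℂ) : S2 ≃ₜ S2 := (Homeomorph.subRight c).onePointCongr

lemma tr_coe (c z : ℂ) : tr c (z : S2) = ((z - c : ℂ) : S2) := rfl

lemma tr_infty (c : ℂ) : tr c OnePoint.infty = OnePoint.infty := rfl

lemma tr_symm_coe (c z : ℂ) : (tr c).symm (z : S2) = ((z + c : ℂ) : S2) := by
  rw [Homeomorph.symm_apply_eq, tr_coe]
  simp

lemma tr_symm_infty (c : ℂ) : (tr c).symm OnePoint.infty = OnePoint.infty := by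
  rw [Homeomorph.symm_apply_eq, tr_infty]

lemma tr_toSphere (c a b : ℂ) : tr c (toSphere a b) = toSphere (a - c * b) b := by
  unfold toSphere
  by_cases hb : b = 0
  · simp only [hb, if_true]
    exact tr_infty c
  · rw [if_neg hb, if_neg hb, tr_coe]
    congr 1
    field_simp

lemma coeff_comp (A : ℂ[X]) (c : ℂ) (d : ℕ) (h : A.natDegree ≤ d) :
    (A.comp (X + C c)).coeff d = A.coeff d := by
  have hdeg : (A.comp (X + C c)).natDegree = A.natDegree := by
    rw [Polynomial.natDegree_comp, Polynomial.natDegree_X_add_C, mul_one]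
  rcases h.lt_or_eq with h | h
  · rw [Polynomial.coeff_eq_zero_of_natDegree_lt h,
      Polynomial.coeff_eq_zero_of_natDegree_lt (by omega)]
  · have : (A.comp (X + C c)).leadingCoeff = A.leadingCoeff := by
      rw [Polynomial.leadingCoeff_comp (by simp)]
      simp
    rw [Polynomial.leadingCoeff, Polynomial.leadingCoeff, hdeg, h] at this
    exact this

lemma isRational_tr {d : ℕ} {R : S2 → S2} (h : IsRational d R) (c : ℂ) :
    IsRational d (tr c ∘ R ∘ (tr c).symm) := by
  obtain ⟨A, B, hc, hmax, rfl⟩ := h
  obtain ⟨hA, hB, hl⟩ := lead_of_max hc hmax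
  have hdA : (A.comp (X + C c)).natDegree ≤ d := by
    rw [Polynomial.natDegree_comp, Polynomial.natDegree_X_add_C, mul_one]; exact hA
  have hdB : (B.comp (X + C c)).natDegree ≤ d := by
    rw [Polynomial.natDegree_comp, Polynomial.natDegree_X_add_C, mul_one]; exact hB
  refine ⟨A.comp (X + C c) - C c * B.comp (X + C c), B.comp (X + C c), ?_, ?_, ?_⟩
  · have h1 : IsCoprime (A.comp (X + C c)) (B.comp (X + C c)) := by
      have := hc.map (Polynomial.compRingHom (X + C c))
      simpa using this
    have h2 := IsCoprime.add_mul_right_left h1 (-(C c))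
    have h3 : A.comp (X + C c) - C c * B.comp (X + C c) =
        A.comp (X + C c) + -(C c) * B.comp (X + C c) := by ring
    rw [h3]
    exact h2
  · apply max_of_lead
    refine ⟨(Polynomial.natDegree_sub_le _ _).trans (max_le hdA ?_), hdB, ?_⟩
    · exact (Polynomial.natDegree_C_mul_le _ _).trans hdB
    · rw [Polynomial.coeff_sub, Polynomial.coeff_C_mul, coeff_comp _ _ _ hA, coeff_comp _ _ _ hB]
      by_cases hb : B.coeff d = 0
      · left
        simp only [hb, mul_zero, sub_zero]
        exact hl.resolve_right (by simp [hb])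
      · exact Or.inr hb
  · ext z
    induction z using OnePoint.rec with
    | infty =>
      simp only [Function.comp_apply, tr_symm_infty]
      change tr c (toSphere _ _) = toSphere _ _
      rw [tr_toSphere, Polynomial.coeff_sub, Polynomial.coeff_C_mul, coeff_comp _ _ _ hA,
        coeff_comp _ _ _ hB]
    | coe w =>
      simp only [Function.comp_apply, tr_symm_coe]
      change tr c (toSphere _ _) = toSphere _ _
      rw [tr_toSphere]
      simp

/-! ### The inversion -/

/-- inversion as a map of the sphere -/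
noncomputable def invMap : S2 → S2 := ratMap 1 1 X

lemma invMap_infty : invMap OnePoint.infty = ((0 : ℂ) : S2) := by
  change toSphere _ _ = _
  simp [toSphere, Polynomial.coeff_one]

lemma invMap_coe (w : ℂ) : invMap (w : S2) = toSphere 1 w := by
  change toSphere _ _ = _
  simp

lemma invMap_zero : invMap ((0 : ℂ) : S2) = OnePoint.infty := by
  rw [invMap_coe]
  simp [toSphere]

lemma invMap_toSphere (a b : ℂ) (h : a ≠ 0 ∨ b ≠ 0) : invMap (toSphere a b) = toSphere b a := by
  by_cases hb : b = 0
  · subst hb
    have ha : a ≠ 0 := h.resolve_right (by simp)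
    have h1 : toSphere a 0 = OnePoint.infty := by simp [toSphere]
    rw [h1, invMap_infty]
    simp [toSphere, ha]
  · have h1 : toSphere a b = ((a / b : ℂ) : S2) := by simp [toSphere, hb]
    rw [h1, invMap_coe]
    by_cases ha : a = 0
    · simp [toSphere, ha]
    · simp [toSphere, ha, hb]

lemma invMap_invMap (z : S2) : invMap (invMap z) = z := by
  induction z using OnePoint.rec with
  | infty => rw [invMap_infty, invMap_zero]
  | coe w =>
    rw [invMap_coe, invMap_toSphere _ _ (Or.inl one_ne_zero)]
    simp [toSphere]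

lemma continuous_invMap : Continuous invMap := by
  apply continuous_ratMap
  · exact isCoprime_one_left
  · exact ⟨by simp, by simp, by simp⟩

/-- inversion as a homeomorphism -/
noncomputable def invHomeo : S2 ≃ₜ S2 where
  toFun := invMap
  invFun := invMap
  left_inv := invMap_invMap
  right_inv := invMap_invMap
  continuous_toFun := continuous_invMap
  continuous_invFun := continuous_invMap

lemma invHomeo_apply (z : S2) : invHomeo z = invMap z := rfl

lemma invHomeo_symm_apply (z : S2) : invHomeo.symm z = invMap z := rfl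

lemma eval_reflect (d : ℕ) (A : ℂ[X]) (hA : A.natDegree ≤ d) (w : ℂ) (hw : w ≠ 0) :
    (reflect d A).eval w = w ^ d * A.eval w⁻¹ := by
  have hi : Invertible (w⁻¹) := invertibleOfNonzero (inv_ne_zero hw)
  have := Polynomial.eval₂_reflect_mul_pow (RingHom.id ℂ) (w⁻¹) d A hA
  rw [invOf_eq_inv, inv_inv] at this
  simp only [Polynomial.eval₂_id] at this
  rw [← this]
  have h2 : w ^ d * w⁻¹ ^ d = 1 := by rw [← mul_pow, mul_inv_cancel₀ hw, one_pow]
  calc (reflect d A).eval w = (reflect d A).eval w * (w ^ d * w⁻¹ ^ d) := by rw [h2, mul_one]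
    _ = _ := by ring

lemma coeff_reflect_zero (d : ℕ) (A : ℂ[X]) : (reflect d A).coeff 0 = A.coeff d := by
  rw [Polynomial.coeff_reflect, Polynomial.revAt_zero]

lemma coeff_reflect_top (d : ℕ) (A : ℂ[X]) : (reflect d A).coeff d = A.coeff 0 := by
  rw [Polynomial.coeff_reflect, Polynomial.revAt_le le_rfl, Nat.sub_self]

lemma isRational_inv {d : ℕ} {R : S2 → S2} (h : IsRational d R) :
    IsRational d (invHomeo ∘ R ∘ invHomeo.symm) := by
  obtain ⟨A, B, hc, hmax, rfl⟩ := h
  obtain ⟨hA, hB, hl⟩ := lead_of_max hc hmax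
  refine ⟨reflect d B, reflect d A, ?_, ?_, ?_⟩
  · rw [Polynomial.isCoprime_iff_aeval_ne_zero_of_isAlgClosed (k := ℂ) (K := ℂ)]
    intro w
    simp only [Polynomial.coe_aeval_eq_eval]
    by_cases hw : w = 0
    · subst hw
      rw [← Polynomial.coeff_zero_eq_eval_zero, ← Polynomial.coeff_zero_eq_eval_zero,
        coeff_reflect_zero, coeff_reflect_zero]
      exact hl.symm
    · rw [eval_reflect d _ hA w hw, eval_reflect d _ hB w hw]
      rcases T3.ne_zero_of_coprime hc w⁻¹ with h | h
      · exact Or.inr (mul_ne_zero (pow_ne_zero _ hw) h)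
      · exact Or.inl (mul_ne_zero (pow_ne_zero _ hw) h)
  · apply max_of_lead
    refine ⟨Polynomial.natDegree_reflect_le.trans (max_le le_rfl hB),
      Polynomial.natDegree_reflect_le.trans (max_le le_rfl hA), ?_⟩
    rw [coeff_reflect_top, coeff_reflect_top, Polynomial.coeff_zero_eq_eval_zero,
      Polynomial.coeff_zero_eq_eval_zero]
    exact (T3.ne_zero_of_coprime hc 0).symm
  · ext z
    simp only [Function.comp_apply, invHomeo_symm_apply, invHomeo_apply]
    induction z using OnePoint.rec with
    | infty =>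
      rw [invMap_infty]
      change invMap (toSphere _ _) = toSphere _ _
      rw [invMap_toSphere _ _ (T3.ne_zero_of_coprime hc 0), coeff_reflect_top, coeff_reflect_top,
        Polynomial.coeff_zero_eq_eval_zero, Polynomial.coeff_zero_eq_eval_zero]
    | coe w =>
      by_cases hw : w = 0
      · subst hw
        rw [invMap_zero]
        change invMap (toSphere _ _) = toSphere _ _
        rw [invMap_toSphere _ _ hl, ← Polynomial.coeff_zero_eq_eval_zero,
          ← Polynomial.coeff_zero_eq_eval_zero, coeff_reflect_zero, coeff_reflect_zero]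
      · have h1 : invMap (w : S2) = ((w⁻¹ : ℂ) : S2) := by
          rw [invMap_coe]
          simp [toSphere, hw]
        rw [h1]
        change invMap (toSphere _ _) = toSphere _ _
        rw [invMap_toSphere _ _ (T3.ne_zero_of_coprime hc _), eval_reflect d _ hA w hw,
          eval_reflect d _ hB w hw, T3.toSphere_mul _ _ _ (pow_ne_zero _ hw)]

end T4

open T4 in
/-- mod:T4. -/
theorem exists_infty_mem {d n : ℕ} {R : S2 → S2} {P : Set S2} (h : RatPair d n R P)
    (hP : P.Nonempty) :
    ∃ R' P', RatPair d n R' P' ∧ OnePoint.infty ∈ P' ∧ IsoPair R P R' P' := by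
  by_cases hinf : OnePoint.infty ∈ P
  · exact ⟨R, P, h, hinf, Homeomorph.refl _, Homeomorph.refl _, fun x => rfl,
      IsotopicRel.refl _ _, by simp⟩
  · obtain ⟨z, hz⟩ := hP
    induction z using OnePoint.rec with
    | infty => exact absurd hz hinf
    | coe c =>
      have h1 : IsRational d (((tr c).trans invHomeo) ∘ R ∘ ((tr c).trans invHomeo).symm) :=
        isRational_inv (isRational_tr h.1 c)
      obtain ⟨h2, h3⟩ := ratPair_conj h _ h1
      refine ⟨_, _, h2, ⟨(c : S2), hz, ?_⟩, h3⟩
      change invMap (tr c (c : S2)) = _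
      rw [tr_coe, sub_self, invMap_zero]

end Pool.Agent.helper65.GCA
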